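import Pool.Agent.D0H37.SO.Key

set_option autoImplicit false

/-!
Odd perfect numbers `q ^ 5 n ^ 2`.
-/

namespace Pool.Agent.D0H37.SO

open Finset

theorem gs_pos (p e : ℕ) : 0 < gs p e := by
  unfold gs
  rw [Finset.sum_range_succ']
  simp

theorem gs_le {p : ℕ} (hp : 2 ≤ p) (e : ℕ) : gs p e ≤ 2 * p ^ e := by
  have h1 := gs_mul p e
  have h2 : (2 : ℤ) ≤ p := by exact_mod_cast hp
  have h3 : (0 : ℤ) < (p : ℤ) ^ e := by positivity
  have h4 : (gs p e : ℤ) * ((p : ℤ) - 1) ≤ (2 * (p : ℤ) ^ e) * ((p : ℤ) - 1) := by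
    rw [h1, pow_succ]
    nlinarith
  have h5 : (gs p e : ℤ) ≤ 2 * (p : ℤ) ^ e := le_of_mul_le_mul_right h4 (by linarith)
  exact_mod_cast h5

theorem pow_le_gs (p e : ℕ) : p ^ e ≤ gs p e := by
  unfold gs
  rw [Finset.sum_range_succ]
  exact Nat.le_add_left _ _

theorem not_dvd_gs {q : ℕ} (hq : q.Prime) (k : ℕ) : ¬ q ∣ gs q k := by
  intro h
  unfold gs at h
  rw [Finset.sum_range_succ', pow_zero] at h
  have h1 : q ∣ ∑ i ∈ range k, q ^ (i + 1) :=
    Finset.dvd_sum fun i _ => dvd_pow_self q (Nat.succ_ne_zero i)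
  exact hq.one_lt.ne' (Nat.dvd_one.1 ((Nat.dvd_add_right h1).1 h))

/-- the index -/
theorem index {q k n : ℕ} (hq : q.Prime) (hqn : q.Coprime n)
    (hperf : (q ^ k * n ^ 2).Perfect) :
    ∃ D, 0 < D ∧ ∑ d ∈ (n ^ 2).divisors, d = q ^ k * D ∧ gs q k * D = 2 * n ^ 2 := by
  have hs := (Nat.perfect_iff_sum_divisors_eq_two_mul hperf.2).1 hperf
  have hcop : (q ^ k).Coprime (n ^ 2) := Nat.Coprime.pow _ _ hqn
  have h1 : ∑ d ∈ (q ^ k).divisors, d = gs q k := by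
    rw [Nat.sum_divisors_prime_pow hq]
    rfl
  rw [Nat.Coprime.sum_divisors_mul hcop, h1] at hs
  have h2 : q ^ k ∣ ∑ d ∈ (n ^ 2).divisors, d := by
    have h3 : (q ^ k).Coprime (gs q k) :=
      Nat.Coprime.pow_left _ ((Nat.Prime.coprime_iff_not_dvd hq).2 (not_dvd_gs hq k))
    apply h3.dvd_of_dvd_mul_left
    rw [hs]
    exact ⟨2 * n ^ 2, by ring⟩
  obtain ⟨D, hD⟩ := h2
  have h3 : gs q k * D = 2 * n ^ 2 := by
    rw [hD] at hs
    have h4 : q ^ k * (gs q k * D) = q ^ k * (2 * n ^ 2) := by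
      calc q ^ k * (gs q k * D) = gs q k * (q ^ k * D) := by ring
        _ = 2 * (q ^ k * n ^ 2) := hs
        _ = _ := by ring
    exact Nat.eq_of_mul_eq_mul_left (pow_pos hq.pos k) h4
  refine ⟨D, ?_, hD, h3⟩
  rcases Nat.eq_zero_or_pos D with h4 | h4
  · rw [h4, mul_zero] at h3
    have h5 := hperf.2
    have h6 : n ≠ 0 := by
      rintro rfl
      simp at h5
    have h7 : 0 < n ^ 2 := by positivity
    omega
  · exact h4

/-- the inequality for one prime -/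
theorem one_prime {q n D p : ℕ} (hq : q.Prime) (hn : n ≠ 0) (hD : 0 < D)
    (hs : gs q 5 * D = 2 * n ^ 2) (hp : p.Prime) (hpn : p ∣ n) (hp2 : p ≠ 2) {κ c : ℕ}
    (hκ : gs p ((n ^ 2).factorization p) = q ^ κ * c) (hc : 1 ≤ c) :
    q ^ κ ≤ (2 * 11 ^ 5) ^ κ * c ^ 5 * (p ^ D.factorization p) ^ 2 := by
  have hpv : 1 ≤ (p ^ D.factorization p) ^ 2 := Nat.one_le_pow _ _ (pow_pos hp.pos _)
  have hc5 : 1 ≤ c ^ 5 := Nat.one_le_pow _ _ hc
  rcases Nat.eq_zero_or_pos κ with h0 | h0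
  · rw [h0, pow_zero, pow_zero, one_mul]
    exact Nat.one_le_iff_ne_zero.2 (Nat.mul_ne_zero (by omega) (by omega))
  · obtain ⟨e, he⟩ : ∃ e, e = (n ^ 2).factorization p := ⟨_, rfl⟩
    obtain ⟨v, hv⟩ : ∃ v, v = D.factorization p := ⟨_, rfl⟩
    obtain ⟨b, hb⟩ : ∃ b, b = (gs q 5).factorization p := ⟨_, rfl⟩
    rw [← he] at hκ
    rw [← hv] at hpv ⊢
    have he2 : e = 2 * n.factorization p := by
      rw [he, Nat.factorization_pow]
      simp
    have hn1 : 1 ≤ n.factorization p := hp.factorization_pos_of_dvd hn hpn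
    have hbv : b + v = e := by
      have h1 : (gs q 5 * D).factorization p = (2 * n ^ 2).factorization p := by rw [hs]
      rw [Nat.factorization_mul (gs_pos q 5).ne' hD.ne', Nat.factorization_mul (by norm_num)
        (pow_ne_zero 2 hn), Finsupp.add_apply, Finsupp.add_apply] at h1
      have h2 : (2 : ℕ).factorization p = 0 := by
        apply Nat.factorization_eq_zero_of_not_dvd
        intro h
        exact hp2 ((Nat.prime_dvd_prime_iff_eq hp Nat.prime_two).1 h)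
      rw [h2, zero_add, ← hb, ← hv, ← he] at h1
      exact h1
    have hc6 : 1 ≤ c ^ 6 := Nat.one_le_pow _ _ hc
    have hpe : p ^ e ≤ 11 ^ 5 * c ^ 6 * (p ^ v) ^ 2 := by
      by_cases hb2 : 2 ≤ b
      · have h1 := key hp hp2 (show b ≤ e + 1 by omega) hb2 hκ hc
          (by rw [hb]; exact Nat.ordProj_dvd _ _)
        calc p ^ e = p ^ b * p ^ v := by rw [← pow_add, hbv]
          _ ≤ (11 ^ 5 * c ^ 6) * (p ^ v) ^ 2 := by
              apply Nat.mul_le_mul h1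
              exact Nat.le_self_pow (by norm_num) _
      · calc p ^ e ≤ p ^ (v * 2) := Nat.pow_le_pow_right hp.pos (by omega)
          _ = (p ^ v) ^ 2 := pow_mul _ _ _
          _ ≤ 11 ^ 5 * c ^ 6 * (p ^ v) ^ 2 :=
              Nat.le_mul_of_pos_left _ (by positivity)
    have h1 : q ^ κ * c ≤ (2 * 11 ^ 5 * c ^ 5 * (p ^ v) ^ 2) * c := by
      rw [← hκ]
      calc gs p e ≤ 2 * p ^ e := gs_le hp.two_le e
        _ ≤ 2 * (11 ^ 5 * c ^ 6 * (p ^ v) ^ 2) := Nat.mul_le_mul_left _ hpe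
        _ = _ := by ring
    have h2 := le_of_mul_le_mul_right h1 hc
    refine h2.trans ?_
    apply Nat.mul_le_mul_right
    apply Nat.mul_le_mul_right
    exact Nat.le_self_pow (by omega) _

/-- the index is large -/
theorem main5 {q n : ℕ} (hq : q.Prime) (hqn : q.Coprime n) (hodd : Odd (q ^ 5 * n ^ 2))
    (hperf : (q ^ 5 * n ^ 2).Perfect) :
    ∃ D, gs q 5 * D = 2 * n ^ 2 ∧ q ^ 5 ≤ (2 * 11 ^ 5) ^ 5 * D ^ 7 := by
  obtain ⟨D, hD, hσ, hs⟩ := index hq hqn hperf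
  refine ⟨D, hs, ?_⟩
  have hn : n ≠ 0 := by
    rintro rfl
    have := hperf.2
    simp at this
  have hn2 : n ^ 2 ≠ 0 := pow_ne_zero 2 hn
  have hq2 : q ≠ 2 := by
    rintro rfl
    have h1 := Nat.odd_iff.1 hodd
    omega
  have hqD : ¬ q ∣ D := by
    intro h
    have h1 : q ∣ 2 * n ^ 2 := by rw [← hs]; exact Dvd.dvd.mul_left h _
    rcases (Nat.Prime.dvd_mul hq).1 h1 with h2 | h2
    · exact hq2 ((Nat.prime_dvd_prime_iff_eq hq Nat.prime_two).1 h2)
    · exact (Nat.Prime.coprime_iff_not_dvd hq).1 hqn (hq.dvd_of_dvd_pow h2)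
  obtain ⟨F, hF⟩ : ∃ F, F = (n ^ 2).primeFactors := ⟨_, rfl⟩
  have hFp : ∀ p ∈ F, p.Prime ∧ p ∣ n ∧ p ≠ 2 := by
    intro p hp
    rw [hF] at hp
    have hpp := Nat.prime_of_mem_primeFactors hp
    have hpn := hpp.dvd_of_dvd_pow (Nat.dvd_of_mem_primeFactors hp)
    refine ⟨hpp, hpn, ?_⟩
    rintro rfl
    have h1 : 2 ∣ q ^ 5 * n ^ 2 :=
      Dvd.dvd.mul_left (dvd_pow hpn (by norm_num)) _
    have h2 := Nat.odd_iff.1 hodd
    omega
  obtain ⟨κ, hκ⟩ : ∃ κ : ℕ → ℕ, ∀ p, κ p = (gs p ((n ^ 2).factorization p)).factorization q :=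
    ⟨_, fun _ => rfl⟩
  obtain ⟨c, hc⟩ : ∃ c : ℕ → ℕ, ∀ p, gs p ((n ^ 2).factorization p) = q ^ κ p * c p := by
    refine ⟨fun p => gs p ((n ^ 2).factorization p) /
      q ^ (gs p ((n ^ 2).factorization p)).factorization q, fun p => ?_⟩
    rw [hκ p]
    exact (Nat.ordProj_mul_ordCompl_eq_self (gs p ((n ^ 2).factorization p)) q).symm
  have hcq : ∀ p, ¬ q ∣ c p := by
    intro p h
    obtain ⟨r, hr⟩ := h
    have h1 : q ^ (κ p + 1) ∣ gs p ((n ^ 2).factorization p) := by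
      rw [hc p, hr]
      exact ⟨r, by ring⟩
    have h2 := (hq.pow_dvd_iff_le_factorization (gs_pos _ _).ne').1 h1
    rw [← hκ p] at h2
    omega
  have hc1 : ∀ p, 1 ≤ c p := by
    intro p
    rcases Nat.eq_zero_or_pos (c p) with h | h
    · exact absurd (by rw [h]; exact dvd_zero q) (hcq p)
    · exact h
  have hprod : q ^ (∑ p ∈ F, κ p) * ∏ p ∈ F, c p = q ^ 5 * D := by
    rw [← hσ, Nat.sum_divisors hn2, ← hF, ← Finset.prod_pow_eq_pow_sum, ← Finset.prod_mul_distrib]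
    exact Finset.prod_congr rfl fun p _ => (hc p).symm
  have hqΓ : ¬ q ∣ ∏ p ∈ F, c p := by
    intro h
    obtain ⟨p, _, hp⟩ := (Prime.dvd_finsetProd_iff hq.prime _).1 h
    exact hcq p hp
  have hΓ0 : ∏ p ∈ F, c p ≠ 0 := by
    intro h
    exact hqΓ (by rw [h]; exact dvd_zero q)
  have hsum : ∑ p ∈ F, κ p = 5 := by
    have h1 : (q ^ (∑ p ∈ F, κ p) * ∏ p ∈ F, c p).factorization q =
        (q ^ 5 * D).factorization q := by rw [hprod]
    rw [Nat.factorization_mul (pow_ne_zero _ hq.ne_zero) hΓ0,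
      Nat.factorization_mul (pow_ne_zero _ hq.ne_zero) hD.ne', Finsupp.add_apply, Finsupp.add_apply,
      Nat.factorization_eq_zero_of_not_dvd hqΓ, Nat.factorization_eq_zero_of_not_dvd hqD,
      hq.factorization_pow, hq.factorization_pow, Finsupp.single_eq_same,
      Finsupp.single_eq_same] at h1
    omega
  have hΓ : ∏ p ∈ F, c p = D := by
    rw [hsum] at hprod
    exact Nat.eq_of_mul_eq_mul_left (pow_pos hq.pos 5) hprod
  have hV : ∏ p ∈ F, p ^ D.factorization p ≤ D := by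
    have h1 : ∏ p ∈ F, p ^ D.factorization p ≤
        ∏ p ∈ F ∪ D.primeFactors, p ^ D.factorization p := by
      apply Finset.prod_le_prod_of_subset_of_one_le' Finset.subset_union_left
      intro p hp _
      rcases Nat.eq_zero_or_pos p with h | h
      · rw [h]
        simp
      · exact Nat.one_le_pow _ _ h
    have h2 : ∏ p ∈ D.primeFactors, p ^ D.factorization p =
        ∏ p ∈ F ∪ D.primeFactors, p ^ D.factorization p := by
      apply Finset.prod_subset Finset.subset_union_right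
      intro p _ hp
      rw [← Nat.support_factorization, Finsupp.notMem_support_iff] at hp
      rw [hp, pow_zero]
    rw [← h2] at h1
    exact h1.trans (le_of_eq (Nat.prod_factorization_pow_eq_self hD.ne'))
  calc q ^ 5 = ∏ p ∈ F, q ^ κ p := by rw [Finset.prod_pow_eq_pow_sum, hsum]
    _ ≤ ∏ p ∈ F, ((2 * 11 ^ 5) ^ κ p * c p ^ 5 * (p ^ D.factorization p) ^ 2) :=
        Finset.prod_le_prod' fun p hp =>
          one_prime hq hn hD hs (hFp p hp).1 (hFp p hp).2.1 (hFp p hp).2.2 (hc p) (hc1 p)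
    _ = (2 * 11 ^ 5) ^ 5 * D ^ 5 * (∏ p ∈ F, p ^ D.factorization p) ^ 2 := by
        rw [Finset.prod_mul_distrib, Finset.prod_mul_distrib, Finset.prod_pow_eq_pow_sum, hsum,
          Finset.prod_pow, hΓ, Finset.prod_pow]
    _ ≤ (2 * 11 ^ 5) ^ 5 * D ^ 5 * D ^ 2 :=
        Nat.mul_le_mul_left _ (Nat.pow_le_pow_left hV 2)
    _ = (2 * 11 ^ 5) ^ 5 * D ^ 7 := by ring

/-- the bound for `q` -/
theorem bound {q k n : ℕ} (hq : q.Prime) (hk : k % 4 = 1) (hk1 : 1 < k) (hqn : q.Coprime n)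
    (hodd : Odd (q ^ k * n ^ 2)) (hperf : (q ^ k * n ^ 2).Perfect) :
    q ^ 40 ≤ 2 ^ 12 * 11 ^ 25 * n ^ 14 := by
  have hn : n ≠ 0 := by
    rintro rfl
    have := hperf.2
    simp at this
  have hn1 : 1 ≤ n := Nat.pos_of_ne_zero hn
  rcases (show k = 5 ∨ 9 ≤ k by omega) with h | h
  · subst h
    obtain ⟨D, h1, h2⟩ := main5 hq hqn hodd hperf
    have h3 : q ^ 5 * D ≤ 2 * n ^ 2 := by
      rw [← h1]
      exact Nat.mul_le_mul_right _ (pow_le_gs q 5)
    calc q ^ 40 = q ^ 5 * q ^ 35 := by ring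
      _ ≤ ((2 * 11 ^ 5) ^ 5 * D ^ 7) * q ^ 35 := Nat.mul_le_mul_right _ h2
      _ = (2 * 11 ^ 5) ^ 5 * (q ^ 5 * D) ^ 7 := by ring
      _ ≤ (2 * 11 ^ 5) ^ 5 * (2 * n ^ 2) ^ 7 :=
          Nat.mul_le_mul_left _ (Nat.pow_le_pow_left h3 7)
      _ = _ := by ring
  · obtain ⟨D, hD, _, h1⟩ := index hq hqn hperf
    have h2 : q ^ 9 ≤ 2 * n ^ 2 := by
      calc q ^ 9 ≤ q ^ k := Nat.pow_le_pow_right hq.pos h
        _ ≤ gs q k := pow_le_gs q k
        _ ≤ gs q k * D := Nat.le_mul_of_pos_right _ hD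
        _ = 2 * n ^ 2 := h1
    calc q ^ 40 ≤ q ^ 45 := Nat.pow_le_pow_right hq.pos (by norm_num)
      _ = (q ^ 9) ^ 5 := by ring
      _ ≤ (2 * n ^ 2) ^ 5 := Nat.pow_le_pow_left h2 5
      _ = 2 ^ 5 * n ^ 10 := by ring
      _ ≤ 2 ^ 12 * 11 ^ 25 * n ^ 14 :=
          Nat.mul_le_mul (by norm_num) (Nat.pow_le_pow_right hn1 (by norm_num))

end Pool.Agent.D0H37.SO
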