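import Pool.Agent.D0H37.SO.Key2

set_option autoImplicit false

/-!
Odd perfect numbers `q ^ 5 n ^ 2`: the index is at least `q / (2 * 11 ^ 3)`.
-/

namespace Pool.Agent.D0H37.SO

open Finset

/-- the case `b = 1`, `c ≥ 2` -/
theorem p_le {p c : ℕ} (hp : p.Prime) (hc : 2 ≤ c) {η : ℤ} (hη : η = 1 ∨ η = -1)
    (h : (p : ℤ) ^ 1 ∣ (c : ℤ) ^ 3 * (1 - p) ^ 3 - η) : p ≤ 2 * c ^ 2 := by
  have hpp : Prime (p : ℤ) := Nat.prime_iff_prime_int.1 hp
  have h1 : (p : ℤ) ∣ (c : ℤ) ^ 3 - η := by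
    rw [pow_one] at h
    have h2 : (c : ℤ) ^ 3 - η = ((c : ℤ) ^ 3 * (1 - p) ^ 3 - η) +
        (p : ℤ) * ((c : ℤ) ^ 3 * (3 - 3 * p + (p : ℤ) ^ 2)) := by ring
    rw [h2]
    exact dvd_add h (Dvd.intro _ rfl)
  have hc' : (2 : ℤ) ≤ c := by exact_mod_cast hc
  have h3 : (p : ℤ) ≤ 2 * (c : ℤ) ^ 2 := by
    rcases hη with h | h
    · rw [h] at h1
      have h4 : (c : ℤ) ^ 3 - 1 = ((c : ℤ) - 1) * ((c : ℤ) ^ 2 + c + 1) := by ring
      rw [h4] at h1
      rcases hpp.dvd_or_dvd h1 with h5 | h5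
      · have := Int.le_of_dvd (by linarith) h5
        nlinarith
      · have := Int.le_of_dvd (by nlinarith) h5
        nlinarith
    · rw [h] at h1
      have h4 : (c : ℤ) ^ 3 - -1 = ((c : ℤ) + 1) * ((c : ℤ) ^ 2 - c + 1) := by ring
      rw [h4] at h1
      rcases hpp.dvd_or_dvd h1 with h5 | h5
      · have := Int.le_of_dvd (by linarith) h5
        nlinarith
      · have := Int.le_of_dvd (by nlinarith) h5
        nlinarith
  exact_mod_cast h3

/-- `q ≡ 1` modulo `p` is impossible -/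
theorem not_one {p q e : ℕ} (hp : p.Prime) (hp12 : 12 ≤ p) (h : gs p e = q) (hd : p ∣ gs q 5) :
    False := by
  have h1 : (p : ℤ) ∣ (q : ℤ) - 1 := by
    rw [← h]
    unfold gs
    rw [Finset.sum_range_succ', pow_zero]
    push_cast
    rw [add_sub_cancel_right]
    exact Finset.dvd_sum fun i _ => dvd_pow_self _ (Nat.succ_ne_zero i)
  have h2 : ((gs q 5 : ℕ) : ℤ) = ((q : ℤ) - 1) *
      ((q : ℤ) ^ 4 + 2 * (q : ℤ) ^ 3 + 3 * (q : ℤ) ^ 2 + 4 * q + 5) + 6 := by
    unfold gs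
    simp only [Finset.sum_range_succ, Finset.sum_range_zero]
    push_cast
    ring
  have h3 : (p : ℤ) ∣ ((gs q 5 : ℕ) : ℤ) := by exact_mod_cast hd
  rw [h2] at h3
  have h4 : (p : ℤ) ∣ 6 := (dvd_add_right (Dvd.dvd.mul_right h1 _)).1 h3
  have h5 : p ∣ 6 := by exact_mod_cast h4
  have := Nat.le_of_dvd (by norm_num) h5
  omega

/-- the inequality for one prime -/
theorem one_prime2 {q n D p : ℕ} (hn : n ≠ 0) (hD : 0 < D)
    (hqD : 2 * 11 ^ 3 * D < q)
    (hs : gs q 5 * D = 2 * n ^ 2) (hp : p.Prime) (hpn : p ∣ n) (hp2 : p ≠ 2) {κ c : ℕ}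
    (hκ : gs p ((n ^ 2).factorization p) = q ^ κ * c) (hc : 1 ≤ c) :
    q ^ κ ≤ (2 * 11 ^ 3) ^ κ * c ^ 4 * p ^ D.factorization p := by
  have hpv : 1 ≤ p ^ D.factorization p := Nat.one_le_pow _ _ hp.pos
  have hc4 : 1 ≤ c ^ 4 := Nat.one_le_pow _ _ hc
  rcases Nat.eq_zero_or_pos κ with h0 | h0
  · rw [h0, pow_zero, pow_zero, one_mul]
    exact Nat.one_le_iff_ne_zero.2 (Nat.mul_ne_zero (by omega) (by omega))
  · obtain ⟨e, he⟩ : ∃ e, e = (n ^ 2).factorization p := ⟨_, rfl⟩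
    obtain ⟨v, hv⟩ : ∃ v, v = D.factorization p := ⟨_, rfl⟩
    obtain ⟨b, hb⟩ : ∃ b, b = (gs q 5).factorization p := ⟨_, rfl⟩
    rw [← he] at hκ
    rw [← hv] at hpv ⊢
    have he2 : e = 2 * n.factorization p := by
      rw [he, Nat.factorization_pow]
      simp
    have hn1 : 1 ≤ n.factorization p := hp.factorization_pos_of_dvd hn hpn
    have hbv : b + v = e := by
      have h1 : (gs q 5 * D).factorization p = (2 * n ^ 2).factorization p := by rw [hs]
      rw [Nat.factorization_mul (gs_pos q 5).ne' hD.ne', Nat.factorization_mul (by norm_num)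
        (pow_ne_zero 2 hn), Finsupp.add_apply, Finsupp.add_apply] at h1
      have h2 : (2 : ℕ).factorization p = 0 := by
        apply Nat.factorization_eq_zero_of_not_dvd
        intro h
        exact hp2 ((Nat.prime_dvd_prime_iff_eq hp Nat.prime_two).1 h)
      rw [h2, zero_add, ← hb, ← hv, ← he] at h1
      exact h1
    have hdb : p ^ b ∣ gs q 5 := by rw [hb]; exact Nat.ordProj_dvd _ _
    have hgs : q ^ κ * c ≤ 2 * p ^ e := by
      rw [← hκ]
      exact gs_le hp.two_le e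
    -- it is enough to have the bound with one factor `2 * 11 ^ 3`
    suffices hmain : q ^ κ * c ≤ (2 * 11 ^ 3 * c ^ 4 * p ^ v) * c by
      have h2 := le_of_mul_le_mul_right hmain hc
      refine h2.trans ?_
      apply Nat.mul_le_mul_right
      apply Nat.mul_le_mul_right
      exact Nat.le_self_pow (by omega) _
    rcases (show b = 0 ∨ b = 1 ∨ 2 ≤ b by omega) with hb' | hb' | hb'
    · have hev : e = v := by omega
      rw [hev] at hgs
      calc q ^ κ * c ≤ 2 * p ^ v := hgs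
        _ = (2 * 1 * 1 * p ^ v) * 1 := by ring
        _ ≤ (2 * 11 ^ 3 * c ^ 4 * p ^ v) * c := by
            apply Nat.mul_le_mul _ hc
            apply Nat.mul_le_mul_right
            exact Nat.mul_le_mul (by norm_num) hc4
    · have hev : e = v + 1 := by omega
      have hpe : p ^ e = p ^ v * p := by rw [hev, pow_succ]
      by_cases hp11 : p ≤ 11
      · calc q ^ κ * c ≤ 2 * p ^ e := hgs
          _ = 2 * (p ^ v * p) := by rw [hpe]
          _ ≤ 2 * (p ^ v * 11) := Nat.mul_le_mul_left _ (Nat.mul_le_mul_left _ hp11)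
          _ = (2 * 11 * 1 * p ^ v) * 1 := by ring
          _ ≤ (2 * 11 ^ 3 * c ^ 4 * p ^ v) * c := by
              apply Nat.mul_le_mul _ hc
              apply Nat.mul_le_mul_right
              exact Nat.mul_le_mul (by norm_num) hc4
      · rcases (show c = 1 ∨ 2 ≤ c by omega) with hc1 | hc2
        · exfalso
          rw [hc1, mul_one] at hκ hgs
          rcases (show κ = 1 ∨ 2 ≤ κ by omega) with hk1 | hk2
          · rw [hk1, pow_one] at hκ
            rw [hb', pow_one] at hdb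
            exact not_one hp (by omega) hκ hdb
          · have hq1 : 1 ≤ q := by omega
            have h1 : q ^ 2 ≤ q ^ κ := Nat.pow_le_pow_right hq1 hk2
            have h2 : p ^ e ≤ (p ^ v) ^ 2 := by
              rw [← pow_mul]
              exact Nat.pow_le_pow_right hp.pos (by omega)
            have h3 : p ^ v ≤ D := Nat.le_of_dvd hD (by rw [hv]; exact Nat.ordProj_dvd _ _)
            have h4 : q ^ 2 ≤ 2 * D ^ 2 := by
              calc q ^ 2 ≤ q ^ κ := h1
                _ ≤ 2 * p ^ e := hgs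
                _ ≤ 2 * (p ^ v) ^ 2 := Nat.mul_le_mul_left _ h2
                _ ≤ 2 * D ^ 2 := Nat.mul_le_mul_left _ (Nat.pow_le_pow_left h3 2)
            have h5 : (2 * D) ^ 2 < q ^ 2 := by
              apply Nat.pow_lt_pow_left _ (by norm_num)
              calc 2 * D ≤ 2 * 11 ^ 3 * D := Nat.mul_le_mul_right _ (by norm_num)
                _ < q := hqD
            nlinarith
        · obtain ⟨η, hη, h1⟩ := cube_dvd hp hp2 (show b ≤ e + 1 by omega) hκ hdb
          rw [hb'] at h1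
          have h2 := p_le hp hc2 hη h1
          calc q ^ κ * c ≤ 2 * p ^ e := hgs
            _ = 2 * (p ^ v * p) := by rw [hpe]
            _ ≤ 2 * (p ^ v * (2 * c ^ 2)) := Nat.mul_le_mul_left _ (Nat.mul_le_mul_left _ h2)
            _ = (2 * 2 * c * p ^ v) * c := by ring
            _ ≤ (2 * 11 ^ 3 * c ^ 4 * p ^ v) * c := by
                apply Nat.mul_le_mul_right
                apply Nat.mul_le_mul_right
                exact Nat.mul_le_mul (by norm_num) (Nat.le_self_pow (by norm_num) c)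
    · have h1 := key2 hp hp2 (show b ≤ e + 1 by omega) hb' hκ hc hdb
      calc q ^ κ * c ≤ 2 * p ^ e := hgs
        _ = 2 * (p ^ b * p ^ v) := by rw [← pow_add, hbv]
        _ ≤ 2 * (11 ^ 3 * c ^ 5 * p ^ v) := Nat.mul_le_mul_left _ (Nat.mul_le_mul_right _ h1)
        _ = _ := by ring

/-- the index is large -/
theorem main5b {q n : ℕ} (hq : q.Prime) (hqn : q.Coprime n) (hodd : Odd (q ^ 5 * n ^ 2))
    (hperf : (q ^ 5 * n ^ 2).Perfect) :
    ∃ D, ∑ d ∈ (n ^ 2).divisors, d = q ^ 5 * D ∧ gs q 5 * D = 2 * n ^ 2 ∧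
      q ≤ 2 * 11 ^ 3 * D := by
  obtain ⟨D, hD, hσ, hs⟩ := index hq hqn hperf
  refine ⟨D, hσ, hs, ?_⟩
  by_contra hcon
  push Not at hcon
  have hn : n ≠ 0 := by
    rintro rfl
    have := hperf.2
    simp at this
  have hn2 : n ^ 2 ≠ 0 := pow_ne_zero 2 hn
  have hq2 : q ≠ 2 := by
    rintro rfl
    have h1 := Nat.odd_iff.1 hodd
    omega
  have hqD : ¬ q ∣ D := by
    intro h
    have h1 : q ∣ 2 * n ^ 2 := by rw [← hs]; exact Dvd.dvd.mul_left h _
    rcases (Nat.Prime.dvd_mul hq).1 h1 with h2 | h2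
    · exact hq2 ((Nat.prime_dvd_prime_iff_eq hq Nat.prime_two).1 h2)
    · exact (Nat.Prime.coprime_iff_not_dvd hq).1 hqn (hq.dvd_of_dvd_pow h2)
  obtain ⟨F, hF⟩ : ∃ F, F = (n ^ 2).primeFactors := ⟨_, rfl⟩
  have hFp : ∀ p ∈ F, p.Prime ∧ p ∣ n ∧ p ≠ 2 := by
    intro p hp
    rw [hF] at hp
    have hpp := Nat.prime_of_mem_primeFactors hp
    have hpn := hpp.dvd_of_dvd_pow (Nat.dvd_of_mem_primeFactors hp)
    refine ⟨hpp, hpn, ?_⟩
    rintro rfl
    have h1 : 2 ∣ q ^ 5 * n ^ 2 :=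
      Dvd.dvd.mul_left (dvd_pow hpn (by norm_num)) _
    have h2 := Nat.odd_iff.1 hodd
    omega
  obtain ⟨κ, hκ⟩ : ∃ κ : ℕ → ℕ, ∀ p, κ p = (gs p ((n ^ 2).factorization p)).factorization q :=
    ⟨_, fun _ => rfl⟩
  obtain ⟨c, hc⟩ : ∃ c : ℕ → ℕ, ∀ p, gs p ((n ^ 2).factorization p) = q ^ κ p * c p := by
    refine ⟨fun p => gs p ((n ^ 2).factorization p) /
      q ^ (gs p ((n ^ 2).factorization p)).factorization q, fun p => ?_⟩
    rw [hκ p]
    exact (Nat.ordProj_mul_ordCompl_eq_self (gs p ((n ^ 2).factorization p)) q).symm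
  have hcq : ∀ p, ¬ q ∣ c p := by
    intro p h
    obtain ⟨r, hr⟩ := h
    have h1 : q ^ (κ p + 1) ∣ gs p ((n ^ 2).factorization p) := by
      rw [hc p, hr]
      exact ⟨r, by ring⟩
    have h2 := (hq.pow_dvd_iff_le_factorization (gs_pos _ _).ne').1 h1
    rw [← hκ p] at h2
    omega
  have hc1 : ∀ p, 1 ≤ c p := by
    intro p
    rcases Nat.eq_zero_or_pos (c p) with h | h
    · exact absurd (by rw [h]; exact dvd_zero q) (hcq p)
    · exact h
  have hprod : q ^ (∑ p ∈ F, κ p) * ∏ p ∈ F, c p = q ^ 5 * D := by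
    rw [← hσ, Nat.sum_divisors hn2, ← hF, ← Finset.prod_pow_eq_pow_sum, ← Finset.prod_mul_distrib]
    exact Finset.prod_congr rfl fun p _ => (hc p).symm
  have hqΓ : ¬ q ∣ ∏ p ∈ F, c p := by
    intro h
    obtain ⟨p, _, hp⟩ := (Prime.dvd_finsetProd_iff hq.prime _).1 h
    exact hcq p hp
  have hΓ0 : ∏ p ∈ F, c p ≠ 0 := by
    intro h
    exact hqΓ (by rw [h]; exact dvd_zero q)
  have hsum : ∑ p ∈ F, κ p = 5 := by
    have h1 : (q ^ (∑ p ∈ F, κ p) * ∏ p ∈ F, c p).factorization q =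
        (q ^ 5 * D).factorization q := by rw [hprod]
    rw [Nat.factorization_mul (pow_ne_zero _ hq.ne_zero) hΓ0,
      Nat.factorization_mul (pow_ne_zero _ hq.ne_zero) hD.ne', Finsupp.add_apply, Finsupp.add_apply,
      Nat.factorization_eq_zero_of_not_dvd hqΓ, Nat.factorization_eq_zero_of_not_dvd hqD,
      hq.factorization_pow, hq.factorization_pow, Finsupp.single_eq_same,
      Finsupp.single_eq_same] at h1
    omega
  have hΓ : ∏ p ∈ F, c p = D := by
    rw [hsum] at hprod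
    exact Nat.eq_of_mul_eq_mul_left (pow_pos hq.pos 5) hprod
  have hV : ∏ p ∈ F, p ^ D.factorization p ≤ D := by
    have h1 : ∏ p ∈ F, p ^ D.factorization p ≤
        ∏ p ∈ F ∪ D.primeFactors, p ^ D.factorization p := by
      apply Finset.prod_le_prod_of_subset_of_one_le' Finset.subset_union_left
      intro p hp _
      rcases Nat.eq_zero_or_pos p with h | h
      · rw [h]
        simp
      · exact Nat.one_le_pow _ _ h
    have h2 : ∏ p ∈ D.primeFactors, p ^ D.factorization p =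
        ∏ p ∈ F ∪ D.primeFactors, p ^ D.factorization p := by
      apply Finset.prod_subset Finset.subset_union_right
      intro p _ hp
      rw [← Nat.support_factorization, Finsupp.notMem_support_iff] at hp
      rw [hp, pow_zero]
    rw [← h2] at h1
    exact h1.trans (le_of_eq (Nat.prod_factorization_pow_eq_self hD.ne'))
  have hfin : q ^ 5 ≤ (2 * 11 ^ 3 * D) ^ 5 := by
    calc q ^ 5 = ∏ p ∈ F, q ^ κ p := by rw [Finset.prod_pow_eq_pow_sum, hsum]
      _ ≤ ∏ p ∈ F, ((2 * 11 ^ 3) ^ κ p * c p ^ 4 * p ^ D.factorization p) :=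
          Finset.prod_le_prod' fun p hp =>
            one_prime2 hn hD hcon hs (hFp p hp).1 (hFp p hp).2.1 (hFp p hp).2.2 (hc p) (hc1 p)
      _ = (2 * 11 ^ 3) ^ 5 * D ^ 4 * ∏ p ∈ F, p ^ D.factorization p := by
          rw [Finset.prod_mul_distrib, Finset.prod_mul_distrib, Finset.prod_pow_eq_pow_sum, hsum,
            Finset.prod_pow, hΓ]
      _ ≤ (2 * 11 ^ 3) ^ 5 * D ^ 4 * D := Nat.mul_le_mul_left _ hV
      _ = (2 * 11 ^ 3 * D) ^ 5 := by ring
  have := (Nat.pow_le_pow_iff_left (by norm_num)).1 hfin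
  omega

/-- the bound for `q` -/
theorem bound2 {q k n : ℕ} (hq : q.Prime) (hk : k % 4 = 1) (hk1 : 1 < k) (hqn : q.Coprime n)
    (hodd : Odd (q ^ k * n ^ 2)) (hperf : (q ^ k * n ^ 2).Perfect) :
    q ^ 6 ≤ 4 * 11 ^ 3 * n ^ 2 := by
  rcases (show k = 5 ∨ 9 ≤ k by omega) with h | h
  · subst h
    obtain ⟨D, _, h1, h2⟩ := main5b hq hqn hodd hperf
    calc q ^ 6 = q ^ 5 * q := by ring
      _ ≤ q ^ 5 * (2 * 11 ^ 3 * D) := Nat.mul_le_mul_left _ h2
      _ ≤ gs q 5 * (2 * 11 ^ 3 * D) := Nat.mul_le_mul_right _ (pow_le_gs q 5)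
      _ = 2 * 11 ^ 3 * (gs q 5 * D) := by ring
      _ = 2 * 11 ^ 3 * (2 * n ^ 2) := by rw [h1]
      _ = _ := by ring
  · obtain ⟨D, hD, _, h1⟩ := index hq hqn hperf
    calc q ^ 6 ≤ q ^ k := Nat.pow_le_pow_right hq.pos (by omega)
      _ ≤ gs q k := pow_le_gs q k
      _ ≤ gs q k * D := Nat.le_mul_of_pos_right _ hD
      _ = 2 * n ^ 2 := h1
      _ ≤ 4 * 11 ^ 3 * n ^ 2 := Nat.mul_le_mul_right _ (by norm_num)

end Pool.Agent.D0H37.SO
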