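import Pool.Agent.D0H37.SO.Fin

set_option autoImplicit false

/-!
The index of an odd perfect number `q ^ k n ^ 2` for general `k`.
-/

namespace Pool.Agent.D0H37.SO

open Finset

theorem power_dvd {p q κ c e b k : ℕ} (hb : b ≤ e + 1) (hs : gs p e = q ^ κ * c)
    (hd : p ^ b ∣ gs q k) : (p : ℤ) ^ b ∣ ((c : ℤ) * (1 - p)) ^ (k + 1) - 1 := by
  have h1 : (q : ℤ) ^ (k + 1) ≡ 1 [ZMOD (p : ℤ) ^ b] := by
    apply Int.ModEq.symm
    rw [Int.modEq_iff_dvd, ← gs_mul]
    exact Dvd.dvd.mul_right (by exact_mod_cast hd) _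
  have h4 : (q : ℤ) ^ κ * c * (1 - p) ≡ 1 [ZMOD (p : ℤ) ^ b] := by
    have h5 : (q : ℤ) ^ κ * c * (1 - p) = 1 - (p : ℤ) ^ (e + 1) := by
      have h6 := gs_mul p e
      rw [hs] at h6
      push_cast at h6
      linarith
    rw [h5]
    apply Int.ModEq.symm
    rw [Int.modEq_iff_dvd]
    have h6 : (1 : ℤ) - (p : ℤ) ^ (e + 1) - 1 = -((p : ℤ) ^ (e + 1)) := by ring
    rw [h6, dvd_neg]
    exact pow_dvd_pow _ hb
  have h7 := h4.pow (k + 1)
  rw [one_pow] at h7
  have h8 : ((q : ℤ) ^ κ * c * (1 - p)) ^ (k + 1) =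
      ((q : ℤ) ^ (k + 1)) ^ κ * ((c : ℤ) * (1 - p)) ^ (k + 1) := by
    rw [mul_assoc, mul_pow, ← pow_mul, ← pow_mul, mul_comm κ]
  rw [h8] at h7
  have h9 := ((h1.pow κ).symm.mul_right _).trans h7
  rw [one_pow, one_mul] at h9
  exact Int.ModEq.dvd h9.symm

/-- the truncated binomial series -/
def Tm (j m : ℕ) (p : ℤ) : ℤ := ∑ i ∈ range m, ((j + i).choose i : ℤ) * p ^ i

theorem tm_step (j m : ℕ) (p : ℤ) :
    (1 - p) * Tm (j + 1) (m + 1) p - Tm j (m + 1) p =
      -(((j + 1 + m).choose m : ℤ) * p ^ (m + 1)) := by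
  induction m with
  | zero =>
    unfold Tm
    simp
  | succ m ih =>
    have h1 : Tm (j + 1) (m + 1 + 1) p = Tm (j + 1) (m + 1) p +
        ((j + 1 + (m + 1)).choose (m + 1) : ℤ) * p ^ (m + 1) := by
      unfold Tm
      rw [sum_range_succ]
    have h2 : Tm j (m + 1 + 1) p = Tm j (m + 1) p +
        ((j + (m + 1)).choose (m + 1) : ℤ) * p ^ (m + 1) := by
      unfold Tm
      rw [sum_range_succ]
    have h3 : ((j + 1 + (m + 1)).choose (m + 1) : ℤ) =
        ((j + 1 + m).choose m : ℤ) + ((j + (m + 1)).choose (m + 1) : ℤ) := by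
      have h4 : j + 1 + (m + 1) = (j + 1 + m) + 1 := by ring
      have h5 : j + (m + 1) = j + 1 + m := by ring
      rw [h4, h5, Nat.choose_succ_succ]
      push_cast
      ring
    rw [h1, h2]
    have h6 : (1 - p) * (Tm (j + 1) (m + 1) p +
        ((j + 1 + (m + 1)).choose (m + 1) : ℤ) * p ^ (m + 1)) -
        (Tm j (m + 1) p + ((j + (m + 1)).choose (m + 1) : ℤ) * p ^ (m + 1)) =
        ((1 - p) * Tm (j + 1) (m + 1) p - Tm j (m + 1) p) +
        (((j + 1 + (m + 1)).choose (m + 1) : ℤ) - ((j + (m + 1)).choose (m + 1) : ℤ)) *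
          p ^ (m + 1) - ((j + 1 + (m + 1)).choose (m + 1) : ℤ) * p ^ (m + 1 + 1) := by
      rw [pow_succ]
      ring
    rw [h6, ih, h3]
    ring

theorem tm_dvd (j m : ℕ) (p : ℤ) : p ^ m ∣ (1 - p) ^ (j + 1) * Tm j m p - 1 := by
  rcases m with _ | m
  · rw [pow_zero]
    exact one_dvd _
  · induction j with
    | zero =>
      have h1 : (1 - p) ^ (0 + 1) * Tm 0 (m + 1) p - 1 = -(p ^ (m + 1)) := by
        have h2 : Tm 0 (m + 1) p = ∑ i ∈ range (m + 1), p ^ i := by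
          unfold Tm
          refine sum_congr rfl fun i _ => ?_
          rw [zero_add, Nat.choose_self, Nat.cast_one, one_mul]
        have h3 := geom_sum_mul p (m + 1)
        rw [h2, zero_add, pow_one]
        linarith
      rw [h1, dvd_neg]
    | succ j ih =>
      have h1 : (1 - p) ^ (j + 1 + 1) * Tm (j + 1) (m + 1) p - 1 =
          (1 - p) ^ (j + 1) * ((1 - p) * Tm (j + 1) (m + 1) p - Tm j (m + 1) p) +
          ((1 - p) ^ (j + 1) * Tm j (m + 1) p - 1) := by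
        rw [pow_succ]
        ring
      rw [h1, tm_step]
      refine dvd_add (Dvd.dvd.mul_left ?_ _) ih
      rw [dvd_neg]
      exact Dvd.intro_left _ rfl

/-- **the key inequality for general `k`** -/
theorem keyG {p q κ c e b k : ℕ} (hp3 : 3 ≤ p) (hb : b ≤ e + 1) (hb2 : 2 ≤ b)
    (hs : gs p e = q ^ κ * c) (hc : 1 ≤ c) (hd : p ^ b ∣ gs q k) :
    p ^ b ≤ (2 ^ (3 * k + 2)) ^ (2 * (k + 1)) * c ^ (2 * (k + 1)) := by
  have h := power_dvd hb hs hd
  have hc1 : 1 ≤ c ^ (2 * (k + 1)) := Nat.one_le_pow _ _ hc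
  have hC1 : 1 ≤ (2 ^ (3 * k + 2)) ^ (2 * (k + 1)) := Nat.one_le_pow _ _ (by positivity)
  have hp3' : (3 : ℤ) ≤ p := by exact_mod_cast hp3
  have hc' : (1 : ℤ) ≤ c := by exact_mod_cast hc
  by_cases hbig : 2 * (k + 1) < b
  · -- large exponents
    have h1 : (p : ℤ) ^ b ≤ (c : ℤ) ^ (k + 1) * (p : ℤ) ^ (k + 1) := by
      obtain ⟨x, hx⟩ : ∃ x : ℤ, x = (c : ℤ) * (p - 1) := ⟨_, rfl⟩
      have hx2 : 2 ≤ x := by rw [hx]; nlinarith
      have hxk : 2 ≤ x ^ (k + 1) := by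
        calc (2 : ℤ) ≤ x := hx2
          _ = x ^ 1 := (pow_one x).symm
          _ ≤ x ^ (k + 1) := pow_le_pow_right₀ (by linarith) (by omega)
      have h2 : ((c : ℤ) * (1 - p)) ^ (k + 1) = x ^ (k + 1) ∨
          ((c : ℤ) * (1 - p)) ^ (k + 1) = -(x ^ (k + 1)) := by
        have h3 : (c : ℤ) * (1 - p) = -x := by rw [hx]; ring
        rw [h3]
        rcases Nat.even_or_odd (k + 1) with h4 | h4
        · exact Or.inl (h4.neg_pow x)
        · exact Or.inr (h4.neg_pow x)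
      have h3 : (p : ℤ) ^ b ≤ x ^ (k + 1) + 1 := by
        rcases h2 with h2 | h2
        · rw [h2] at h
          have := Int.le_of_dvd (by linarith) h
          linarith
        · rw [h2] at h
          have h4 : (p : ℤ) ^ b ∣ x ^ (k + 1) + 1 := by
            have h5 : x ^ (k + 1) + 1 = -(-(x ^ (k + 1)) - 1) := by ring
            rw [h5, dvd_neg]
            exact h
          exact Int.le_of_dvd (by linarith) h4
      have h4 : x ^ (k + 1) + 1 ≤ (c : ℤ) ^ (k + 1) * (p : ℤ) ^ (k + 1) := by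
        rw [← mul_pow]
        have h5 : x + 1 ≤ (c : ℤ) * p := by rw [hx]; nlinarith
        have h6 : x ^ (k + 1) + 1 ≤ (x + 1) ^ (k + 1) := by
          rw [pow_succ (x + 1), pow_succ x]
          have h7 : x ^ k ≤ (x + 1) ^ k := pow_le_pow_left₀ (by linarith) (by linarith) k
          have h8 : 1 ≤ (x + 1) ^ k := one_le_pow₀ (by linarith)
          nlinarith
        exact h6.trans (pow_le_pow_left₀ (by linarith) h5 _)
      exact h3.trans h4
    have h2 : p ^ b ≤ c ^ (k + 1) * p ^ (k + 1) := by exact_mod_cast h1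
    have h3 : p ^ b = p ^ (b - (k + 1)) * p ^ (k + 1) := by
      rw [← pow_add]
      congr 1
      omega
    rw [h3] at h2
    have h4 : p ^ (b - (k + 1)) ≤ c ^ (k + 1) := le_of_mul_le_mul_right h2 (by positivity)
    calc p ^ b ≤ p ^ ((b - (k + 1)) * 2) := Nat.pow_le_pow_right (by omega) (by omega)
      _ = (p ^ (b - (k + 1))) ^ 2 := pow_mul _ _ _
      _ ≤ (c ^ (k + 1)) ^ 2 := Nat.pow_le_pow_left h4 2
      _ = c ^ (2 * (k + 1)) := by rw [← pow_mul, mul_comm]
      _ ≤ _ := Nat.le_mul_of_pos_left _ (by omega)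
  · by_cases hps : p ≤ 2 ^ (3 * k + 2)
    · calc p ^ b ≤ (2 ^ (3 * k + 2)) ^ b := Nat.pow_le_pow_left hps b
        _ ≤ (2 ^ (3 * k + 2)) ^ (2 * (k + 1)) :=
            Nat.pow_le_pow_right (by positivity) (by omega)
        _ ≤ _ := Nat.le_mul_of_pos_right _ (by omega)
    · push Not at hps
      obtain ⟨T, hT⟩ : ∃ T, T = Tm k b (p : ℤ) := ⟨_, rfl⟩
      have h1 : (p : ℤ) ^ b ∣ (c : ℤ) ^ (k + 1) - T := by
        have h2 := tm_dvd k b (p : ℤ)
        rw [← hT] at h2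
        have h3 : (c : ℤ) ^ (k + 1) - T =
            -((c : ℤ) ^ (k + 1) * ((1 - p) ^ (k + 1) * T - 1)) +
              T * (((c : ℤ) * (1 - p)) ^ (k + 1) - 1) := by
          rw [mul_pow]
          ring
        rw [h3]
        refine dvd_add ?_ (Dvd.dvd.mul_left h _)
        rw [dvd_neg]
        exact Dvd.dvd.mul_left h2 _
      have hTl : (p : ℤ) ^ (b - 1) ≤ T := by
        rw [hT]
        unfold Tm
        have h2 : (((k + (b - 1)).choose (b - 1) : ℕ) : ℤ) * (p : ℤ) ^ (b - 1) ≤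
            ∑ i ∈ range b, ((k + i).choose i : ℤ) * (p : ℤ) ^ i :=
          single_le_sum (f := fun i => ((k + i).choose i : ℤ) * (p : ℤ) ^ i)
            (fun i _ => by positivity) (mem_range.2 (by omega))
        have h3 : (1 : ℤ) ≤ (((k + (b - 1)).choose (b - 1) : ℕ) : ℤ) := by
          exact_mod_cast Nat.choose_pos (Nat.le_add_left _ _)
        have h4 : (0 : ℤ) ≤ (p : ℤ) ^ (b - 1) := by positivity
        nlinarith
      have hTu : T < (p : ℤ) ^ b := by
        have h2 : T ≤ (2 : ℤ) ^ (3 * k + 2) * ∑ i ∈ range b, (p : ℤ) ^ i := by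
          rw [hT]
          unfold Tm
          rw [mul_sum]
          refine sum_le_sum fun i hi => ?_
          rw [mem_range] at hi
          apply mul_le_mul_of_nonneg_right _ (by positivity)
          have h3 : (k + i).choose i ≤ 2 ^ (3 * k + 2) :=
            (Nat.choose_le_two_pow _ _).trans (Nat.pow_le_pow_right (by norm_num) (by omega))
          exact_mod_cast h3
        have h3 := geom_sum_mul (p : ℤ) b
        have h4 : (2 : ℤ) ^ (3 * k + 2) ≤ p - 1 := by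
          have : ((2 ^ (3 * k + 2) : ℕ) : ℤ) < p := by exact_mod_cast hps
          push_cast at this
          linarith
        have h5 : (0 : ℤ) ≤ ∑ i ∈ range b, (p : ℤ) ^ i := sum_nonneg fun i _ => by positivity
        have h6 : T ≤ (p - 1) * ∑ i ∈ range b, (p : ℤ) ^ i :=
          h2.trans (mul_le_mul_of_nonneg_right h4 h5)
        linarith
      have h2 : T ≤ (c : ℤ) ^ (k + 1) := by
        by_contra hcon
        push Not at hcon
        have h3 : (p : ℤ) ^ b ∣ T - (c : ℤ) ^ (k + 1) := by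
          have h4 : T - (c : ℤ) ^ (k + 1) = -((c : ℤ) ^ (k + 1) - T) := by ring
          rw [h4, dvd_neg]
          exact h1
        have h4 := Int.le_of_dvd (by linarith) h3
        have h5 : (0 : ℤ) ≤ (c : ℤ) ^ (k + 1) := by positivity
        linarith
      have h3 : p ^ (b - 1) ≤ c ^ (k + 1) := by exact_mod_cast hTl.trans h2
      calc p ^ b ≤ p ^ ((b - 1) * 2) := Nat.pow_le_pow_right (by omega) (by omega)
        _ = (p ^ (b - 1)) ^ 2 := pow_mul _ _ _
        _ ≤ (c ^ (k + 1)) ^ 2 := Nat.pow_le_pow_left h3 2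
        _ = c ^ (2 * (k + 1)) := by rw [← pow_mul, mul_comm]
        _ ≤ _ := Nat.le_mul_of_pos_left _ (by omega)

/-- the inequality for one prime -/
theorem one_primeG {q n D p k : ℕ} (hn : n ≠ 0) (hD : 0 < D)
    (hs : gs q k * D = 2 * n ^ 2) (hp : p.Prime) (hpn : p ∣ n) (hp2 : p ≠ 2) {κ c : ℕ}
    (hκ : gs p ((n ^ 2).factorization p) = q ^ κ * c) (hc : 1 ≤ c) :
    q ^ κ ≤ (2 * (2 ^ (3 * k + 2)) ^ (2 * (k + 1))) ^ κ * c ^ (2 * k + 1) *
      (p ^ D.factorization p) ^ 2 := by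
  have hpv : 1 ≤ (p ^ D.factorization p) ^ 2 := Nat.one_le_pow _ _ (pow_pos hp.pos _)
  have hc5 : 1 ≤ c ^ (2 * k + 1) := Nat.one_le_pow _ _ hc
  obtain ⟨C, hC⟩ : ∃ C, C = (2 ^ (3 * k + 2)) ^ (2 * (k + 1)) := ⟨_, rfl⟩
  have hC1 : 1 ≤ C := by rw [hC]; exact Nat.one_le_pow _ _ (by positivity)
  rw [← hC]
  rcases Nat.eq_zero_or_pos κ with h0 | h0
  · rw [h0, pow_zero, pow_zero, one_mul]
    exact Nat.one_le_iff_ne_zero.2 (Nat.mul_ne_zero (by omega) (by omega))
  · obtain ⟨e, he⟩ : ∃ e, e = (n ^ 2).factorization p := ⟨_, rfl⟩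
    obtain ⟨v, hv⟩ : ∃ v, v = D.factorization p := ⟨_, rfl⟩
    obtain ⟨b, hb⟩ : ∃ b, b = (gs q k).factorization p := ⟨_, rfl⟩
    rw [← he] at hκ
    rw [← hv] at hpv ⊢
    have he2 : e = 2 * n.factorization p := by
      rw [he, Nat.factorization_pow]
      simp
    have hn1 : 1 ≤ n.factorization p := hp.factorization_pos_of_dvd hn hpn
    have hbv : b + v = e := by
      have h1 : (gs q k * D).factorization p = (2 * n ^ 2).factorization p := by rw [hs]
      rw [Nat.factorization_mul (gs_pos q k).ne' hD.ne', Nat.factorization_mul (by norm_num)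
        (pow_ne_zero 2 hn), Finsupp.add_apply, Finsupp.add_apply] at h1
      have h2 : (2 : ℕ).factorization p = 0 := by
        apply Nat.factorization_eq_zero_of_not_dvd
        intro h
        exact hp2 ((Nat.prime_dvd_prime_iff_eq hp Nat.prime_two).1 h)
      rw [h2, zero_add, ← hb, ← hv, ← he] at h1
      exact h1
    have hc6 : 1 ≤ c ^ (2 * (k + 1)) := Nat.one_le_pow _ _ hc
    have hpe : p ^ e ≤ C * c ^ (2 * (k + 1)) * (p ^ v) ^ 2 := by
      by_cases hb2 : 2 ≤ b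
      · have h1 := keyG (by have := hp.two_le; omega) (show b ≤ e + 1 by omega) hb2 hκ hc
          (by rw [hb]; exact Nat.ordProj_dvd _ _)
        rw [← hC] at h1
        calc p ^ e = p ^ b * p ^ v := by rw [← pow_add, hbv]
          _ ≤ (C * c ^ (2 * (k + 1))) * (p ^ v) ^ 2 := by
              apply Nat.mul_le_mul h1
              exact Nat.le_self_pow (by norm_num) _
      · calc p ^ e ≤ p ^ (v * 2) := Nat.pow_le_pow_right hp.pos (by omega)
          _ = (p ^ v) ^ 2 := pow_mul _ _ _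
          _ ≤ C * c ^ (2 * (k + 1)) * (p ^ v) ^ 2 :=
              Nat.le_mul_of_pos_left _ (by positivity)
    have h1 : q ^ κ * c ≤ (2 * C * c ^ (2 * k + 1) * (p ^ v) ^ 2) * c := by
      rw [← hκ]
      calc gs p e ≤ 2 * p ^ e := gs_le hp.two_le e
        _ ≤ 2 * (C * c ^ (2 * (k + 1)) * (p ^ v) ^ 2) := Nat.mul_le_mul_left _ hpe
        _ = _ := by
            have : c ^ (2 * (k + 1)) = c ^ (2 * k + 1) * c := by
              rw [← pow_succ]
              congr 1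
            rw [this]
            ring
    have h2 := le_of_mul_le_mul_right h1 hc
    refine h2.trans ?_
    apply Nat.mul_le_mul_right
    apply Nat.mul_le_mul_right
    exact Nat.le_self_pow (by omega) _

/-- the index is large -/
theorem mainG {q n k : ℕ} (hk : 1 ≤ k) (hq : q.Prime) (hqn : q.Coprime n)
    (hodd : Odd (q ^ k * n ^ 2)) (hperf : (q ^ k * n ^ 2).Perfect) :
    ∃ D, gs q k * D = 2 * n ^ 2 ∧
      q ^ k ≤ (2 * (2 ^ (3 * k + 2)) ^ (2 * (k + 1))) ^ k * D ^ (2 * k + 3) := by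
  obtain ⟨D, hD, hσ, hs⟩ := index hq hqn hperf
  refine ⟨D, hs, ?_⟩
  have hn : n ≠ 0 := by
    rintro rfl
    have := hperf.2
    simp at this
  have hn2 : n ^ 2 ≠ 0 := pow_ne_zero 2 hn
  have hq2 : q ≠ 2 := by
    rintro rfl
    have h1 := Nat.odd_iff.1 hodd
    have h2 : 2 ∣ 2 ^ k * n ^ 2 := Dvd.dvd.mul_right (dvd_pow_self 2 (by omega)) _
    omega
  have hqD : ¬ q ∣ D := by
    intro h
    have h1 : q ∣ 2 * n ^ 2 := by rw [← hs]; exact Dvd.dvd.mul_left h _
    rcases (Nat.Prime.dvd_mul hq).1 h1 with h2 | h2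
    · exact hq2 ((Nat.prime_dvd_prime_iff_eq hq Nat.prime_two).1 h2)
    · exact (Nat.Prime.coprime_iff_not_dvd hq).1 hqn (hq.dvd_of_dvd_pow h2)
  obtain ⟨F, hF⟩ : ∃ F, F = (n ^ 2).primeFactors := ⟨_, rfl⟩
  have hFp : ∀ p ∈ F, p.Prime ∧ p ∣ n ∧ p ≠ 2 := by
    intro p hp
    rw [hF] at hp
    have hpp := Nat.prime_of_mem_primeFactors hp
    have hpn := hpp.dvd_of_dvd_pow (Nat.dvd_of_mem_primeFactors hp)
    refine ⟨hpp, hpn, ?_⟩
    rintro rfl
    have h1 : 2 ∣ q ^ k * n ^ 2 :=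
      Dvd.dvd.mul_left (dvd_pow hpn (by norm_num)) _
    have h2 := Nat.odd_iff.1 hodd
    omega
  obtain ⟨κ, hκ⟩ : ∃ κ : ℕ → ℕ, ∀ p, κ p = (gs p ((n ^ 2).factorization p)).factorization q :=
    ⟨_, fun _ => rfl⟩
  obtain ⟨c, hc⟩ : ∃ c : ℕ → ℕ, ∀ p, gs p ((n ^ 2).factorization p) = q ^ κ p * c p := by
    refine ⟨fun p => gs p ((n ^ 2).factorization p) /
      q ^ (gs p ((n ^ 2).factorization p)).factorization q, fun p => ?_⟩
    rw [hκ p]
    exact (Nat.ordProj_mul_ordCompl_eq_self (gs p ((n ^ 2).factorization p)) q).symm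
  have hcq : ∀ p, ¬ q ∣ c p := by
    intro p h
    obtain ⟨r, hr⟩ := h
    have h1 : q ^ (κ p + 1) ∣ gs p ((n ^ 2).factorization p) := by
      rw [hc p, hr]
      exact ⟨r, by ring⟩
    have h2 := (hq.pow_dvd_iff_le_factorization (gs_pos _ _).ne').1 h1
    rw [← hκ p] at h2
    omega
  have hc1 : ∀ p, 1 ≤ c p := by
    intro p
    rcases Nat.eq_zero_or_pos (c p) with h | h
    · exact absurd (by rw [h]; exact dvd_zero q) (hcq p)
    · exact h
  have hprod : q ^ (∑ p ∈ F, κ p) * ∏ p ∈ F, c p = q ^ k * D := by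
    rw [← hσ, Nat.sum_divisors hn2, ← hF, ← Finset.prod_pow_eq_pow_sum, ← Finset.prod_mul_distrib]
    exact Finset.prod_congr rfl fun p _ => (hc p).symm
  have hqΓ : ¬ q ∣ ∏ p ∈ F, c p := by
    intro h
    obtain ⟨p, _, hp⟩ := (Prime.dvd_finsetProd_iff hq.prime _).1 h
    exact hcq p hp
  have hΓ0 : ∏ p ∈ F, c p ≠ 0 := by
    intro h
    exact hqΓ (by rw [h]; exact dvd_zero q)
  have hsum : ∑ p ∈ F, κ p = k := by
    have h1 : (q ^ (∑ p ∈ F, κ p) * ∏ p ∈ F, c p).factorization q =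
        (q ^ k * D).factorization q := by rw [hprod]
    rw [Nat.factorization_mul (pow_ne_zero _ hq.ne_zero) hΓ0,
      Nat.factorization_mul (pow_ne_zero _ hq.ne_zero) hD.ne', Finsupp.add_apply, Finsupp.add_apply,
      Nat.factorization_eq_zero_of_not_dvd hqΓ, Nat.factorization_eq_zero_of_not_dvd hqD,
      hq.factorization_pow, hq.factorization_pow, Finsupp.single_eq_same,
      Finsupp.single_eq_same] at h1
    omega
  have hΓ : ∏ p ∈ F, c p = D := by
    rw [hsum] at hprod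
    exact Nat.eq_of_mul_eq_mul_left (pow_pos hq.pos k) hprod
  have hV : ∏ p ∈ F, p ^ D.factorization p ≤ D := by
    have h1 : ∏ p ∈ F, p ^ D.factorization p ≤
        ∏ p ∈ F ∪ D.primeFactors, p ^ D.factorization p := by
      apply Finset.prod_le_prod_of_subset_of_one_le' Finset.subset_union_left
      intro p hp _
      rcases Nat.eq_zero_or_pos p with h | h
      · rw [h]
        simp
      · exact Nat.one_le_pow _ _ h
    have h2 : ∏ p ∈ D.primeFactors, p ^ D.factorization p =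
        ∏ p ∈ F ∪ D.primeFactors, p ^ D.factorization p := by
      apply Finset.prod_subset Finset.subset_union_right
      intro p _ hp
      rw [← Nat.support_factorization, Finsupp.notMem_support_iff] at hp
      rw [hp, pow_zero]
    rw [← h2] at h1
    exact h1.trans (le_of_eq (Nat.prod_factorization_pow_eq_self hD.ne'))
  obtain ⟨C, hC⟩ : ∃ C, C = 2 * (2 ^ (3 * k + 2)) ^ (2 * (k + 1)) := ⟨_, rfl⟩
  rw [← hC]
  calc q ^ k = ∏ p ∈ F, q ^ κ p := by rw [Finset.prod_pow_eq_pow_sum, hsum]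
    _ ≤ ∏ p ∈ F, (C ^ κ p * c p ^ (2 * k + 1) * (p ^ D.factorization p) ^ 2) := by
        rw [hC]
        exact Finset.prod_le_prod' fun p hp =>
          one_primeG hn hD hs (hFp p hp).1 (hFp p hp).2.1 (hFp p hp).2.2 (hc p) (hc1 p)
    _ = C ^ k * D ^ (2 * k + 1) * (∏ p ∈ F, p ^ D.factorization p) ^ 2 := by
        rw [Finset.prod_mul_distrib, Finset.prod_mul_distrib, Finset.prod_pow_eq_pow_sum, hsum,
          Finset.prod_pow, hΓ, Finset.prod_pow]
    _ ≤ C ^ k * D ^ (2 * k + 1) * D ^ 2 :=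
        Nat.mul_le_mul_left _ (Nat.pow_le_pow_left hV 2)
    _ = C ^ k * D ^ (2 * k + 3) := by
        rw [mul_assoc, ← pow_add]

/-- the bound for `q` -/
theorem boundG (k : ℕ) (hk : 1 ≤ k) : ∃ C : ℕ, ∀ q n : ℕ, q.Prime → q.Coprime n →
    Odd (q ^ k * n ^ 2) → (q ^ k * n ^ 2).Perfect →
    q ^ (k * (k + 2)) ≤ C * n ^ (2 * k + 3) := by
  obtain ⟨B, hB⟩ : ∃ B, B = (2 * (2 ^ (3 * k + 2)) ^ (2 * (k + 1))) ^ k * 2 ^ (2 * k + 3) :=
    ⟨_, rfl⟩
  refine ⟨B, fun q n hq hqn hodd hperf => ?_⟩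
  obtain ⟨D, h1, h2⟩ := mainG hk hq hqn hodd hperf
  have hB1 : 1 ≤ B := by
    rw [hB]
    exact Nat.one_le_iff_ne_zero.2 (by positivity)
  have h3 : q ^ k * D ≤ 2 * n ^ 2 := by
    rw [← h1]
    exact Nat.mul_le_mul_right _ (pow_le_gs q k)
  have h4 : (q ^ (k * (k + 2))) ^ 2 ≤ (B * n ^ (2 * k + 3)) ^ 2 := by
    calc (q ^ (k * (k + 2))) ^ 2 = q ^ k * (q ^ k) ^ (2 * k + 3) := by
          rw [← pow_mul, ← pow_mul, ← pow_add]
          congr 1
          ring
      _ ≤ ((2 * (2 ^ (3 * k + 2)) ^ (2 * (k + 1))) ^ k * D ^ (2 * k + 3)) *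
          (q ^ k) ^ (2 * k + 3) := Nat.mul_le_mul_right _ h2
      _ = (2 * (2 ^ (3 * k + 2)) ^ (2 * (k + 1))) ^ k * (q ^ k * D) ^ (2 * k + 3) := by
          rw [mul_pow (q ^ k) D]
          ring
      _ ≤ (2 * (2 ^ (3 * k + 2)) ^ (2 * (k + 1))) ^ k * (2 * n ^ 2) ^ (2 * k + 3) :=
          Nat.mul_le_mul_left _ (Nat.pow_le_pow_left h3 _)
      _ = B * (n ^ (2 * k + 3)) ^ 2 := by
          rw [hB, mul_pow 2 (n ^ 2), ← pow_mul n 2, mul_comm 2 (2 * k + 3), pow_mul n]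
          ring
      _ ≤ B ^ 2 * (n ^ (2 * k + 3)) ^ 2 :=
          Nat.mul_le_mul_right _ (Nat.le_self_pow (by norm_num) B)
      _ = (B * n ^ (2 * k + 3)) ^ 2 := by rw [mul_pow]
  exact (Nat.pow_le_pow_iff_left (by norm_num)).1 h4

end Pool.Agent.D0H37.SO
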