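import Mathlib

set_option autoImplicit false

/-!
The key lemma: if `p ^ b` divides `1 + q + ... + q ^ 5` and `1 + p + ... + p ^ e = q ^ κ c` with
`2 ≤ b ≤ e + 1`, then `p ^ b ≤ 11 ^ 5 c ^ 6`.
-/

namespace Pool.Agent.D0H37.SO

open Finset

/-- the geometric sum -/
def gs (p e : ℕ) : ℕ := ∑ i ∈ range (e + 1), p ^ i

theorem gs_mul (p e : ℕ) : (gs p e : ℤ) * ((p : ℤ) - 1) = (p : ℤ) ^ (e + 1) - 1 := by
  unfold gs
  push_cast
  exact geom_sum_mul (p : ℤ) (e + 1)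

/-- the cube condition -/
theorem cube_dvd {p q κ c e b : ℕ} (hp : p.Prime) (hp2 : p ≠ 2) (hb : b ≤ e + 1)
    (hs : gs p e = q ^ κ * c) (hd : p ^ b ∣ gs q 5) :
    ∃ η : ℤ, (η = 1 ∨ η = -1) ∧ (p : ℤ) ^ b ∣ (c : ℤ) ^ 3 * (1 - p) ^ 3 - η := by
  have h1 : (p : ℤ) ^ b ∣ ((q : ℤ) ^ 3 - 1) * ((q : ℤ) ^ 3 + 1) := by
    have h2 : ((q : ℤ) ^ 3 - 1) * ((q : ℤ) ^ 3 + 1) = (gs q 5 : ℤ) * ((q : ℤ) - 1) := by
      rw [gs_mul]
      ring
    rw [h2]
    exact Dvd.dvd.mul_right (by exact_mod_cast hd) _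
  have hpp : Prime (p : ℤ) := Nat.prime_iff_prime_int.1 hp
  have h2 : ∃ ε : ℤ, (ε = 1 ∨ ε = -1) ∧ (p : ℤ) ^ b ∣ (q : ℤ) ^ 3 - ε := by
    by_cases h3 : (p : ℤ) ∣ (q : ℤ) ^ 3 - 1
    · have h4 : ¬ (p : ℤ) ∣ (q : ℤ) ^ 3 + 1 := by
        intro h5
        have h6 : (p : ℤ) ∣ 2 := by
          have h7 := dvd_sub h5 h3
          have h8 : (q : ℤ) ^ 3 + 1 - ((q : ℤ) ^ 3 - 1) = 2 := by ring
          rwa [h8] at h7
        have h7 : p ∣ 2 := by exact_mod_cast h6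
        exact hp2 ((Nat.prime_dvd_prime_iff_eq hp Nat.prime_two).1 h7)
      refine ⟨1, Or.inl rfl, ?_⟩
      exact hpp.pow_dvd_of_dvd_mul_right b h4 h1
    · refine ⟨-1, Or.inr rfl, ?_⟩
      have := hpp.pow_dvd_of_dvd_mul_left b h3 h1
      rwa [sub_neg_eq_add]
  obtain ⟨ε, hε, h3⟩ := h2
  have h4 : (q : ℤ) ^ κ * c * (1 - p) ≡ 1 [ZMOD (p : ℤ) ^ b] := by
    have h5 : (q : ℤ) ^ κ * c * (1 - p) = 1 - (p : ℤ) ^ (e + 1) := by
      have h6 := gs_mul p e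
      rw [hs] at h6
      push_cast at h6
      linarith
    rw [h5]
    apply Int.ModEq.symm
    rw [Int.modEq_iff_dvd]
    have h6 : (1 : ℤ) - (p : ℤ) ^ (e + 1) - 1 = -((p : ℤ) ^ (e + 1)) := by ring
    rw [h6, dvd_neg]
    exact pow_dvd_pow _ hb
  have h5 : (q : ℤ) ^ 3 ≡ ε [ZMOD (p : ℤ) ^ b] := by
    apply Int.ModEq.symm
    rw [Int.modEq_iff_dvd]
    exact h3
  refine ⟨ε ^ κ, ?_, ?_⟩
  · rcases hε with h | h
    · left; rw [h, one_pow]
    · rw [h]; exact neg_one_pow_eq_or ℤ κ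
  · have h6 : ε ^ κ * ((c : ℤ) ^ 3 * (1 - p) ^ 3) ≡ 1 [ZMOD (p : ℤ) ^ b] := by
      have h7 := h4.pow 3
      rw [one_pow] at h7
      have h8 : ((q : ℤ) ^ κ * c * (1 - p)) ^ 3 = ((q : ℤ) ^ 3) ^ κ * ((c : ℤ) ^ 3 * (1 - p) ^ 3) := by
        rw [mul_pow, mul_pow, ← pow_mul, ← pow_mul, mul_comm κ 3]
        ring
      rw [h8] at h7
      exact ((h5.pow κ).symm.mul_right _).trans h7
    have h7 : ε ^ κ * ε ^ κ = 1 := by
      rw [← mul_pow]
      rcases hε with h | h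
      · rw [h]; norm_num
      · rw [h]; norm_num
    have h8 := h6.mul_left (ε ^ κ)
    rw [← mul_assoc, h7, one_mul, mul_one] at h8
    exact Int.ModEq.dvd h8.symm

/-- a small cube is impossible -/
theorem no_small {P X T m1 m : ℤ} (hT1 : m1 ≤ T) (hT2 : T + m1 ≤ P) (hX0 : 0 < X) (hX : X < m1)
    {η : ℤ} (hη : η = 1 ∨ η = -1) (hm : m = P) (hd : P ∣ X - η * T) : False := by
  obtain ⟨k, hk⟩ := hd
  rcases hη with h | h
  · rw [h, one_mul] at hk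
    have h1 : X - T < 0 := by linarith
    have h2 : -P < X - T := by linarith
    have h3 : k < 0 := by
      by_contra hcon
      push Not at hcon
      have : 0 ≤ P * k := mul_nonneg (by linarith) hcon
      linarith
    have h4 : P * k ≤ P * (-1) := mul_le_mul_of_nonneg_left (by omega) (by linarith)
    linarith
  · rw [h] at hk
    have h1 : 0 < X + T := by linarith
    have h2 : X + T < P := by linarith
    have h3 : 0 < k := by
      by_contra hcon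
      push Not at hcon
      have : P * k ≤ 0 := mul_nonpos_of_nonneg_of_nonpos (by linarith) hcon
      linarith
    have h4 : P * 1 ≤ P * k := mul_le_mul_of_nonneg_left (by omega) (by linarith)
    linarith

/-- **the key inequality** -/
theorem key {p q κ c e b : ℕ} (hp : p.Prime) (hp2 : p ≠ 2) (hb : b ≤ e + 1) (hb2 : 2 ≤ b)
    (hs : gs p e = q ^ κ * c) (hc : 1 ≤ c) (hd : p ^ b ∣ gs q 5) : p ^ b ≤ 11 ^ 5 * c ^ 6 := by
  obtain ⟨η, hη, h⟩ := cube_dvd hp hp2 hb hs hd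
  have hp3 : 3 ≤ p := by
    have := hp.two_le
    omega
  have hc6 : 1 ≤ c ^ 6 := Nat.one_le_pow _ _ hc
  by_cases hb6 : 6 ≤ b
  · -- large exponents
    have h1 : (p : ℤ) ^ b ≤ (c : ℤ) ^ 3 * (p : ℤ) ^ 3 := by
      obtain ⟨k, hk⟩ := h
      have hp3' : (3 : ℤ) ≤ p := by exact_mod_cast hp3
      have hc' : (1 : ℤ) ≤ c := by exact_mod_cast hc
      have hc3 : (1 : ℤ) ≤ (c : ℤ) ^ 3 := one_le_pow₀ hc'
      have hq3 : (8 : ℤ) ≤ ((p : ℤ) - 1) ^ 3 := by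
        have : (2 : ℤ) ^ 3 ≤ ((p : ℤ) - 1) ^ 3 := pow_le_pow_left₀ (by norm_num) (by linarith) 3
        linarith
      have h2 : (c : ℤ) ^ 3 * (1 - p) ^ 3 = -((c : ℤ) ^ 3 * ((p : ℤ) - 1) ^ 3) := by ring
      rw [h2] at hk
      have h3 : (8 : ℤ) ≤ (c : ℤ) ^ 3 * ((p : ℤ) - 1) ^ 3 := by nlinarith
      have hpb : (0 : ℤ) < (p : ℤ) ^ b := by positivity
      have hη1 : -1 ≤ η ∧ η ≤ 1 := by rcases hη with h | h <;> rw [h] <;> norm_num
      have h4 : k < 0 := by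
        by_contra hcon
        push Not at hcon
        have : 0 ≤ (p : ℤ) ^ b * k := mul_nonneg hpb.le hcon
        linarith [hη1.1, hη1.2]
      have h5 : (p : ℤ) ^ b * k ≤ (p : ℤ) ^ b * (-1) :=
        mul_le_mul_of_nonneg_left (by omega) hpb.le
      have h6 : (p : ℤ) ^ b ≤ (c : ℤ) ^ 3 * ((p : ℤ) - 1) ^ 3 + 1 := by linarith [hη1.1, hη1.2]
      have h7 : ((p : ℤ) - 1) ^ 3 + 1 ≤ (p : ℤ) ^ 3 := by nlinarith
      nlinarith
    have h2 : p ^ b ≤ c ^ 3 * p ^ 3 := by exact_mod_cast h1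
    have h3 : p ^ b = p ^ (b - 3) * p ^ 3 := by
      rw [← pow_add]
      congr 1
      omega
    rw [h3] at h2
    have h4 : p ^ (b - 3) ≤ c ^ 3 := le_of_mul_le_mul_right h2 (by positivity)
    calc p ^ b ≤ p ^ ((b - 3) * 2) := Nat.pow_le_pow_right (by omega) (by omega)
      _ = (p ^ (b - 3)) ^ 2 := pow_mul _ _ _
      _ ≤ (c ^ 3) ^ 2 := Nat.pow_le_pow_left h4 2
      _ = c ^ 6 := by ring
      _ ≤ 11 ^ 5 * c ^ 6 := Nat.le_mul_of_pos_left _ (by norm_num)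
  · by_cases hp11 : p ≤ 11
    · calc p ^ b ≤ 11 ^ b := Nat.pow_le_pow_left hp11 b
        _ ≤ 11 ^ 5 := Nat.pow_le_pow_right (by norm_num) (by omega)
        _ ≤ 11 ^ 5 * c ^ 6 := Nat.le_mul_of_pos_right _ (by omega)
    · have hp13 : (12 : ℤ) ≤ p := by
        have : 12 ≤ p := by omega
        exact_mod_cast this
      have hc3 : (0 : ℤ) < (c : ℤ) ^ 3 := by positivity
      -- multiplication by the inverse of `(1 - p) ^ 3`
      have hmul : ∀ m : ℕ, m ≤ b → m ≤ 4 → (p : ℤ) ^ m ∣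
          (c : ℤ) ^ 3 - η * (1 + 3 * p + 6 * (p : ℤ) ^ 2 + 10 * (p : ℤ) ^ 3) := by
        intro m hm hm4
        have h1 : (c : ℤ) ^ 3 - η * (1 + 3 * p + 6 * (p : ℤ) ^ 2 + 10 * (p : ℤ) ^ 3) =
            ((c : ℤ) ^ 3 * (1 - p) ^ 3 - η) * (1 + 3 * p + 6 * (p : ℤ) ^ 2 + 10 * (p : ℤ) ^ 3) +
            (p : ℤ) ^ 4 * ((c : ℤ) ^ 3 * (15 - 24 * p + 10 * (p : ℤ) ^ 2)) := by ring
        rw [h1]
        exact dvd_add (Dvd.dvd.mul_right ((pow_dvd_pow _ hm).trans h) _)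
          (Dvd.dvd.mul_right (pow_dvd_pow _ hm4) _)
      have hfin : ∀ m : ℕ, 1 ≤ m → p ^ (m - 1) ≤ c ^ 3 → b ≤ 2 * (m - 1) →
          p ^ b ≤ 11 ^ 5 * c ^ 6 := by
        intro m _ h1 h2
        calc p ^ b ≤ p ^ ((m - 1) * 2) := Nat.pow_le_pow_right (by omega) (by omega)
          _ = (p ^ (m - 1)) ^ 2 := pow_mul _ _ _
          _ ≤ (c ^ 3) ^ 2 := Nat.pow_le_pow_left h1 2
          _ = c ^ 6 := by ring
          _ ≤ 11 ^ 5 * c ^ 6 := Nat.le_mul_of_pos_left _ (by norm_num)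
      have hp0 : (0 : ℤ) < p := by linarith
      rcases (show b = 2 ∨ (b = 3 ∨ b = 4) ∨ b = 5 by omega) with hb' | hb' | hb'
      · refine hfin 2 (by norm_num) ?_ (by omega)
        by_contra hcon
        push Not at hcon
        have h1 := hmul 2 (by omega) (by norm_num)
        have h2 : (p : ℤ) ^ 2 ∣ (c : ℤ) ^ 3 - η * (1 + 3 * p) := by
          have h3 : (c : ℤ) ^ 3 - η * (1 + 3 * p) =
              (c : ℤ) ^ 3 - η * (1 + 3 * p + 6 * (p : ℤ) ^ 2 + 10 * (p : ℤ) ^ 3) +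
              (p : ℤ) ^ 2 * (η * (6 + 10 * p)) := by ring
          rw [h3]
          exact dvd_add h1 (Dvd.intro _ rfl)
        exact no_small (P := (p : ℤ) ^ 2) (X := (c : ℤ) ^ 3) (T := 1 + 3 * p) (m1 := p)
          (m := (p : ℤ) ^ 2) (by linarith) (by nlinarith) hc3
          (by have : ((c ^ 3 : ℕ) : ℤ) < ((p ^ 1 : ℕ) : ℤ) := by exact_mod_cast hcon
              push_cast at this
              linarith) hη rfl h2
      · refine hfin 3 (by norm_num) ?_ (by omega)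
        by_contra hcon
        push Not at hcon
        have h1 := hmul 3 (by omega) (by norm_num)
        have h2 : (p : ℤ) ^ 3 ∣ (c : ℤ) ^ 3 - η * (1 + 3 * p + 6 * (p : ℤ) ^ 2) := by
          have h3 : (c : ℤ) ^ 3 - η * (1 + 3 * p + 6 * (p : ℤ) ^ 2) =
              (c : ℤ) ^ 3 - η * (1 + 3 * p + 6 * (p : ℤ) ^ 2 + 10 * (p : ℤ) ^ 3) +
              (p : ℤ) ^ 3 * (η * 10) := by ring
          rw [h3]
          exact dvd_add h1 (Dvd.intro _ rfl)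
        exact no_small (P := (p : ℤ) ^ 3) (X := (c : ℤ) ^ 3) (T := 1 + 3 * p + 6 * (p : ℤ) ^ 2)
          (m1 := (p : ℤ) ^ 2) (m := (p : ℤ) ^ 3) (by nlinarith) (by nlinarith) hc3
          (by exact_mod_cast hcon) hη rfl h2
      · refine hfin 4 (by norm_num) ?_ (by omega)
        by_contra hcon
        push Not at hcon
        have h1 := hmul 4 (by omega) (by norm_num)
        exact no_small (P := (p : ℤ) ^ 4) (X := (c : ℤ) ^ 3)
          (T := 1 + 3 * p + 6 * (p : ℤ) ^ 2 + 10 * (p : ℤ) ^ 3)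
          (m1 := (p : ℤ) ^ 3) (m := (p : ℤ) ^ 4) (by nlinarith [sq_nonneg (p : ℤ)])
          (by
            have e1 : (p : ℤ) ^ 4 = p * (p : ℤ) ^ 3 := by ring
            have e2 : (p : ℤ) ^ 3 = p * (p : ℤ) ^ 2 := by ring
            have e3 : (0 : ℤ) < (p : ℤ) ^ 2 := by positivity
            have e4 : (0 : ℤ) < (p : ℤ) ^ 3 := by positivity
            have e5 : 12 * (p : ℤ) ^ 3 ≤ p * (p : ℤ) ^ 3 := by nlinarith
            have e6 : 12 * (p : ℤ) ^ 2 ≤ (p : ℤ) ^ 3 := by nlinarith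
            have e7 : 12 * (p : ℤ) ≤ (p : ℤ) ^ 2 := by nlinarith
            linarith) hc3 (by exact_mod_cast hcon) hη rfl h1

end Pool.Agent.D0H37.SO
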