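import Pool.Agent.D0H37.SO.Fin

set_option autoImplicit false

/-!
The sharper key lemma: if `p ^ b` divides `1 + q + ... + q ^ 5` and `1 + p + ... + p ^ e = q ^ κ c` with
`2 ≤ b ≤ e + 1`, then `p ^ b ≤ 11 ^ 3 c ^ 5`.
-/

namespace Pool.Agent.D0H37.SO

open Finset

/-- large exponents -/
theorem cube_ge {p c b : ℕ} (hp3 : 3 ≤ p) (hc : 1 ≤ c) (hb : 3 ≤ b) {η : ℤ} (hη : η = 1 ∨ η = -1)
    (h : (p : ℤ) ^ b ∣ (c : ℤ) ^ 3 * (1 - p) ^ 3 - η) : p ^ (b - 3) ≤ c ^ 3 := by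
  have h1 : (p : ℤ) ^ b ≤ (c : ℤ) ^ 3 * (p : ℤ) ^ 3 := by
    obtain ⟨k, hk⟩ := h
    have hp3' : (3 : ℤ) ≤ p := by exact_mod_cast hp3
    have hc' : (1 : ℤ) ≤ c := by exact_mod_cast hc
    have hc3 : (1 : ℤ) ≤ (c : ℤ) ^ 3 := one_le_pow₀ hc'
    have hq3 : (8 : ℤ) ≤ ((p : ℤ) - 1) ^ 3 := by
      have : (2 : ℤ) ^ 3 ≤ ((p : ℤ) - 1) ^ 3 := pow_le_pow_left₀ (by norm_num) (by linarith) 3
      linarith
    have h2 : (c : ℤ) ^ 3 * (1 - p) ^ 3 = -((c : ℤ) ^ 3 * ((p : ℤ) - 1) ^ 3) := by ring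
    rw [h2] at hk
    have h3 : (8 : ℤ) ≤ (c : ℤ) ^ 3 * ((p : ℤ) - 1) ^ 3 := by nlinarith
    have hpb : (0 : ℤ) < (p : ℤ) ^ b := by positivity
    have hη1 : -1 ≤ η ∧ η ≤ 1 := by rcases hη with h | h <;> rw [h] <;> norm_num
    have h4 : k < 0 := by
      by_contra hcon
      push Not at hcon
      have : 0 ≤ (p : ℤ) ^ b * k := mul_nonneg hpb.le hcon
      linarith [hη1.1, hη1.2]
    have h5 : (p : ℤ) ^ b * k ≤ (p : ℤ) ^ b * (-1) :=
      mul_le_mul_of_nonneg_left (by omega) hpb.le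
    have h6 : (p : ℤ) ^ b ≤ (c : ℤ) ^ 3 * ((p : ℤ) - 1) ^ 3 + 1 := by linarith [hη1.1, hη1.2]
    have h7 : ((p : ℤ) - 1) ^ 3 + 1 ≤ (p : ℤ) ^ 3 := by nlinarith
    nlinarith
  have h2 : p ^ b ≤ c ^ 3 * p ^ 3 := by exact_mod_cast h1
  have h3 : p ^ b = p ^ (b - 3) * p ^ 3 := by
    rw [← pow_add]
    congr 1
    omega
  rw [h3] at h2
  exact le_of_mul_le_mul_right h2 (by positivity)

/-- `1 + 3 p` is not a cube -/
theorem not_cube {p c : ℕ} (hp : p.Prime) (hp12 : 12 ≤ p) : c ^ 3 ≠ 1 + 3 * p := by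
  intro h
  have hc2 : 2 ≤ c := by
    by_contra hcon
    have : c ≤ 1 := by omega
    have := Nat.pow_le_pow_left this 3
    omega
  obtain ⟨d, rfl⟩ : ∃ d, c = d + 1 := ⟨c - 1, by omega⟩
  have h1 : d * (d ^ 2 + 3 * d + 3) = 3 * p := by
    have h2 : (d + 1) ^ 3 = 1 + d * (d ^ 2 + 3 * d + 3) := by ring
    omega
  have h2 : p ∣ d * (d ^ 2 + 3 * d + 3) := by rw [h1]; exact Dvd.intro_left 3 rfl
  rcases (Nat.Prime.dvd_mul hp).1 h2 with h3 | h3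
  · have h4 := Nat.le_of_dvd (by omega) h3
    have h5 : d * 3 ≤ d * (d ^ 2 + 3 * d + 3) := Nat.mul_le_mul_left _ (by omega)
    have h6 : d * (3 * d + 3) ≤ d * (d ^ 2 + 3 * d + 3) := Nat.mul_le_mul_left _ (by omega)
    nlinarith
  · obtain ⟨j, hj⟩ := h3
    rw [hj] at h1
    have h4 : d * j = 3 := by
      have : p * (d * j) = p * 3 := by
        calc p * (d * j) = d * (p * j) := by ring
          _ = 3 * p := h1
          _ = p * 3 := by ring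
      exact Nat.eq_of_mul_eq_mul_left hp.pos this
    have h5 : d ∣ 3 := Dvd.intro _ h4
    rcases (Nat.dvd_prime Nat.prime_three).1 h5 with h6 | h6
    · rw [h6] at h
      omega
    · rw [h6] at h
      have h7 : p = 21 := by omega
      rw [h7] at hp
      norm_num at hp

/-- **the key inequality** -/
theorem key2 {p q κ c e b : ℕ} (hp : p.Prime) (hp2 : p ≠ 2) (hb : b ≤ e + 1) (hb2 : 2 ≤ b)
    (hs : gs p e = q ^ κ * c) (hc : 1 ≤ c) (hd : p ^ b ∣ gs q 5) : p ^ b ≤ 11 ^ 3 * c ^ 5 := by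
  obtain ⟨η, hη, h⟩ := cube_dvd hp hp2 hb hs hd
  have hp3 : 3 ≤ p := by
    have := hp.two_le
    omega
  have hc5 : 1 ≤ c ^ 5 := Nat.one_le_pow _ _ hc
  have hc3 : (0 : ℤ) < (c : ℤ) ^ 3 := by positivity
  have hmul : ∀ m : ℕ, m ≤ b → m ≤ 6 → (p : ℤ) ^ m ∣
      (c : ℤ) ^ 3 - η * (1 + 3 * p + 6 * (p : ℤ) ^ 2 + 10 * (p : ℤ) ^ 3 + 15 * (p : ℤ) ^ 4 +
        21 * (p : ℤ) ^ 5) := by
    intro m hm hm4
    have h1 : (c : ℤ) ^ 3 - η * (1 + 3 * p + 6 * (p : ℤ) ^ 2 + 10 * (p : ℤ) ^ 3 +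
        15 * (p : ℤ) ^ 4 + 21 * (p : ℤ) ^ 5) =
        ((c : ℤ) ^ 3 * (1 - p) ^ 3 - η) * (1 + 3 * p + 6 * (p : ℤ) ^ 2 + 10 * (p : ℤ) ^ 3 +
          15 * (p : ℤ) ^ 4 + 21 * (p : ℤ) ^ 5) +
        (p : ℤ) ^ 6 * ((c : ℤ) ^ 3 * (28 - 48 * p + 21 * (p : ℤ) ^ 2)) := by ring
    rw [h1]
    exact dvd_add (Dvd.dvd.mul_right ((pow_dvd_pow _ hm).trans h) _)
      (Dvd.dvd.mul_right (pow_dvd_pow _ hm4) _)
  -- it is enough to bound the third power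
  suffices hmain : p ^ (3 * b) ≤ 11 ^ 9 * c ^ 15 by
    have h1 : (p ^ b) ^ 3 ≤ (11 ^ 3 * c ^ 5) ^ 3 := by
      calc (p ^ b) ^ 3 = p ^ (3 * b) := by rw [← pow_mul, mul_comm]
        _ ≤ 11 ^ 9 * c ^ 15 := hmain
        _ = (11 ^ 3 * c ^ 5) ^ 3 := by ring
    exact (Nat.pow_le_pow_iff_left (by norm_num)).1 h1
  have hc15 : 1 ≤ c ^ 15 := Nat.one_le_pow _ _ hc
  -- from a lower bound for the cube
  have hfin : ∀ m : ℕ, p ^ m ≤ c ^ 3 → 3 * b ≤ 5 * m → p ^ (3 * b) ≤ 11 ^ 9 * c ^ 15 := by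
    intro m h1 h2
    calc p ^ (3 * b) ≤ p ^ (m * 5) := Nat.pow_le_pow_right (by omega) (by omega)
      _ = (p ^ m) ^ 5 := pow_mul _ _ _
      _ ≤ (c ^ 3) ^ 5 := Nat.pow_le_pow_left h1 5
      _ = c ^ 15 := by ring
      _ ≤ 11 ^ 9 * c ^ 15 := Nat.le_mul_of_pos_left _ (by norm_num)
  -- small primes
  have hsm : ∀ (B r : ℕ), p ≤ B → 3 ≤ b → 3 * b = 5 * (b - 3) + r → B ^ r ≤ 11 ^ 9 →
      p ^ (3 * b) ≤ 11 ^ 9 * c ^ 15 := by
    intro B r h1 h2 h3 h4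
    have h5 := cube_ge hp3 hc h2 hη h
    calc p ^ (3 * b) = p ^ r * (p ^ (b - 3)) ^ 5 := by
          rw [← pow_mul, ← pow_add]
          congr 1
          omega
      _ ≤ 11 ^ 9 * (c ^ 3) ^ 5 :=
          Nat.mul_le_mul ((Nat.pow_le_pow_left h1 r).trans h4) (Nat.pow_le_pow_left h5 5)
      _ = 11 ^ 9 * c ^ 15 := by ring
  have hp0 : (0 : ℤ) < p := by
    have : 0 < p := by omega
    exact_mod_cast this
  have q2 : (0 : ℤ) < (p : ℤ) ^ 2 := by positivity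
  have q3 : (0 : ℤ) < (p : ℤ) ^ 3 := by positivity
  have q4 : (0 : ℤ) < (p : ℤ) ^ 4 := by positivity
  have q5 : (0 : ℤ) < (p : ℤ) ^ 5 := by positivity
  rcases (show b = 2 ∨ b = 3 ∨ b = 4 ∨ b = 5 ∨ b = 6 ∨ b = 7 ∨ 8 ≤ b by omega) with
    hb' | hb' | hb' | hb' | hb' | hb' | hb'
  · -- b = 2
    subst hb'
    by_cases hp11 : p ≤ 11
    · calc p ^ (3 * 2) ≤ 11 ^ (3 * 2) := Nat.pow_le_pow_left hp11 _
        _ ≤ 11 ^ 9 * c ^ 15 := by
            calc 11 ^ (3 * 2) ≤ 11 ^ 9 * 1 := by norm_num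
              _ ≤ 11 ^ 9 * c ^ 15 := Nat.mul_le_mul_left _ hc15
    · have hp12 : 12 ≤ p := by omega
      have hp12' : (12 : ℤ) ≤ p := by exact_mod_cast hp12
      have h1 := hmul 2 le_rfl (by norm_num)
      have h2 : (p : ℤ) ^ 2 ∣ (c : ℤ) ^ 3 - η * (1 + 3 * p) := by
        have h3 : (c : ℤ) ^ 3 - η * (1 + 3 * p) =
            (c : ℤ) ^ 3 - η * (1 + 3 * p + 6 * (p : ℤ) ^ 2 + 10 * (p : ℤ) ^ 3 +
              15 * (p : ℤ) ^ 4 + 21 * (p : ℤ) ^ 5) +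
            (p : ℤ) ^ 2 * (η * (6 + 10 * p + 15 * (p : ℤ) ^ 2 + 21 * (p : ℤ) ^ 3)) := by ring
        rw [h3]
        exact dvd_add h1 (Dvd.intro _ rfl)
      have h3 : (p : ℤ) ^ 2 ≤ 2 * (c : ℤ) ^ 3 := by
        obtain ⟨k, hk⟩ := h2
        have h12 : 12 * (p : ℤ) ≤ (p : ℤ) ^ 2 := by nlinarith
        rcases hη with hη | hη
        · rw [hη, one_mul] at hk
          have hk0 : k ≠ 0 := by
            rintro rfl
            rw [mul_zero] at hk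
            have h4 : ((c ^ 3 : ℕ) : ℤ) = ((1 + 3 * p : ℕ) : ℤ) := by
              push_cast
              linarith
            exact not_cube hp hp12 (by exact_mod_cast h4)
          have hk1 : 0 < k := by
            by_contra hcon
            have h5 : k ≤ -1 := by omega
            have h6 : (p : ℤ) ^ 2 * k ≤ (p : ℤ) ^ 2 * (-1) := mul_le_mul_of_nonneg_left h5 q2.le
            linarith
          have h6 : (p : ℤ) ^ 2 * 1 ≤ (p : ℤ) ^ 2 * k := mul_le_mul_of_nonneg_left (by omega) q2.le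
          linarith
        · rw [hη] at hk
          have hk1 : 0 < k := by
            by_contra hcon
            push Not at hcon
            have h6 : (p : ℤ) ^ 2 * k ≤ 0 := mul_nonpos_of_nonneg_of_nonpos q2.le hcon
            linarith
          have h6 : (p : ℤ) ^ 2 * 1 ≤ (p : ℤ) ^ 2 * k := mul_le_mul_of_nonneg_left (by omega) q2.le
          linarith
      have h4 : p ^ 2 ≤ 2 * c ^ 3 := by exact_mod_cast h3
      have h5 : p ^ 6 * 32 ≤ c ^ 15 * 32 := by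
        calc p ^ 6 * 32 ≤ p ^ 6 * p ^ 4 := Nat.mul_le_mul_left _ (by
              calc 32 ≤ 12 ^ 4 := by norm_num
                _ ≤ p ^ 4 := Nat.pow_le_pow_left hp12 4)
          _ = (p ^ 2) ^ 5 := by ring
          _ ≤ (2 * c ^ 3) ^ 5 := Nat.pow_le_pow_left h4 5
          _ = c ^ 15 * 32 := by ring
      calc p ^ (3 * 2) = p ^ 6 := by norm_num
        _ ≤ c ^ 15 := le_of_mul_le_mul_right h5 (by norm_num)
        _ ≤ 11 ^ 9 * c ^ 15 := Nat.le_mul_of_pos_left _ (by norm_num)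
  · -- b = 3
    subst hb'
    by_cases hp11 : p ≤ 11
    · exact hsm 11 9 hp11 (by norm_num) (by norm_num) (by norm_num)
    · have hp12' : (12 : ℤ) ≤ p := by
        have : 12 ≤ p := by omega
        exact_mod_cast this
      refine hfin 2 ?_ (by norm_num)
      by_contra hcon
      push Not at hcon
      have h1 := hmul 3 le_rfl (by norm_num)
      have h2 : (p : ℤ) ^ 3 ∣ (c : ℤ) ^ 3 - η * (1 + 3 * p + 6 * (p : ℤ) ^ 2) := by
        have h3 : (c : ℤ) ^ 3 - η * (1 + 3 * p + 6 * (p : ℤ) ^ 2) =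
            (c : ℤ) ^ 3 - η * (1 + 3 * p + 6 * (p : ℤ) ^ 2 + 10 * (p : ℤ) ^ 3 +
              15 * (p : ℤ) ^ 4 + 21 * (p : ℤ) ^ 5) +
            (p : ℤ) ^ 3 * (η * (10 + 15 * p + 21 * (p : ℤ) ^ 2)) := by ring
        rw [h3]
        exact dvd_add h1 (Dvd.intro _ rfl)
      exact no_small (P := (p : ℤ) ^ 3) (X := (c : ℤ) ^ 3) (T := 1 + 3 * p + 6 * (p : ℤ) ^ 2)
        (m1 := (p : ℤ) ^ 2) (m := (p : ℤ) ^ 3) (by nlinarith) (by nlinarith) hc3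
        (by exact_mod_cast hcon) hη rfl h2
  · -- b = 4
    subst hb'
    by_cases hp11 : p ≤ 11
    · exact hsm 11 7 hp11 (by norm_num) (by norm_num) (by norm_num)
    · have hp12' : (12 : ℤ) ≤ p := by
        have : 12 ≤ p := by omega
        exact_mod_cast this
      refine hfin 3 ?_ (by norm_num)
      by_contra hcon
      push Not at hcon
      have h1 := hmul 4 (by norm_num) (by norm_num)
      have h2 : (p : ℤ) ^ 4 ∣ (c : ℤ) ^ 3 -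
          η * (1 + 3 * p + 6 * (p : ℤ) ^ 2 + 10 * (p : ℤ) ^ 3) := by
        have h3 : (c : ℤ) ^ 3 - η * (1 + 3 * p + 6 * (p : ℤ) ^ 2 + 10 * (p : ℤ) ^ 3) =
            (c : ℤ) ^ 3 - η * (1 + 3 * p + 6 * (p : ℤ) ^ 2 + 10 * (p : ℤ) ^ 3 +
              15 * (p : ℤ) ^ 4 + 21 * (p : ℤ) ^ 5) +
            (p : ℤ) ^ 4 * (η * (15 + 21 * p)) := by ring
        rw [h3]
        exact dvd_add h1 (Dvd.intro _ rfl)
      have e1 : 12 * (p : ℤ) ^ 3 ≤ (p : ℤ) ^ 4 := by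
        have : (p : ℤ) ^ 4 = p * (p : ℤ) ^ 3 := by ring
        nlinarith
      have e2 : 12 * (p : ℤ) ^ 2 ≤ (p : ℤ) ^ 3 := by
        have : (p : ℤ) ^ 3 = p * (p : ℤ) ^ 2 := by ring
        nlinarith
      have e3 : 12 * (p : ℤ) ≤ (p : ℤ) ^ 2 := by nlinarith
      exact no_small (P := (p : ℤ) ^ 4) (X := (c : ℤ) ^ 3)
        (T := 1 + 3 * p + 6 * (p : ℤ) ^ 2 + 10 * (p : ℤ) ^ 3)
        (m1 := (p : ℤ) ^ 3) (m := (p : ℤ) ^ 4) (by linarith) (by linarith) hc3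
        (by exact_mod_cast hcon) hη rfl h2
  · -- b = 5
    subst hb'
    by_cases hp11 : p ≤ 11
    · exact hsm 11 5 hp11 (by norm_num) (by norm_num) (by norm_num)
    · have hp12' : (12 : ℤ) ≤ p := by
        have : 12 ≤ p := by omega
        exact_mod_cast this
      refine hfin 3 ?_ (by norm_num)
      by_contra hcon
      push Not at hcon
      have h1 := hmul 4 (by norm_num) (by norm_num)
      have h2 : (p : ℤ) ^ 4 ∣ (c : ℤ) ^ 3 -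
          η * (1 + 3 * p + 6 * (p : ℤ) ^ 2 + 10 * (p : ℤ) ^ 3) := by
        have h3 : (c : ℤ) ^ 3 - η * (1 + 3 * p + 6 * (p : ℤ) ^ 2 + 10 * (p : ℤ) ^ 3) =
            (c : ℤ) ^ 3 - η * (1 + 3 * p + 6 * (p : ℤ) ^ 2 + 10 * (p : ℤ) ^ 3 +
              15 * (p : ℤ) ^ 4 + 21 * (p : ℤ) ^ 5) +
            (p : ℤ) ^ 4 * (η * (15 + 21 * p)) := by ring
        rw [h3]
        exact dvd_add h1 (Dvd.intro _ rfl)
      have e1 : 12 * (p : ℤ) ^ 3 ≤ (p : ℤ) ^ 4 := by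
        have : (p : ℤ) ^ 4 = p * (p : ℤ) ^ 3 := by ring
        nlinarith
      have e2 : 12 * (p : ℤ) ^ 2 ≤ (p : ℤ) ^ 3 := by
        have : (p : ℤ) ^ 3 = p * (p : ℤ) ^ 2 := by ring
        nlinarith
      have e3 : 12 * (p : ℤ) ≤ (p : ℤ) ^ 2 := by nlinarith
      exact no_small (P := (p : ℤ) ^ 4) (X := (c : ℤ) ^ 3)
        (T := 1 + 3 * p + 6 * (p : ℤ) ^ 2 + 10 * (p : ℤ) ^ 3)
        (m1 := (p : ℤ) ^ 3) (m := (p : ℤ) ^ 4) (by linarith) (by linarith) hc3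
        (by exact_mod_cast hcon) hη rfl h2
  · -- b = 6
    subst hb'
    by_cases hp22 : p ≤ 22
    · exact hsm 22 3 hp22 (by norm_num) (by norm_num) (by norm_num)
    · have hp23' : (23 : ℤ) ≤ p := by
        have : 23 ≤ p := by omega
        exact_mod_cast this
      refine hfin 4 ?_ (by norm_num)
      by_contra hcon
      push Not at hcon
      have h1 := hmul 5 (by norm_num) (by norm_num)
      have h2 : (p : ℤ) ^ 5 ∣ (c : ℤ) ^ 3 -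
          η * (1 + 3 * p + 6 * (p : ℤ) ^ 2 + 10 * (p : ℤ) ^ 3 + 15 * (p : ℤ) ^ 4) := by
        have h3 : (c : ℤ) ^ 3 - η * (1 + 3 * p + 6 * (p : ℤ) ^ 2 + 10 * (p : ℤ) ^ 3 +
            15 * (p : ℤ) ^ 4) =
            (c : ℤ) ^ 3 - η * (1 + 3 * p + 6 * (p : ℤ) ^ 2 + 10 * (p : ℤ) ^ 3 +
              15 * (p : ℤ) ^ 4 + 21 * (p : ℤ) ^ 5) +
            (p : ℤ) ^ 5 * (η * 21) := by ring
        rw [h3]
        exact dvd_add h1 (Dvd.intro _ rfl)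
      have e0 : 23 * (p : ℤ) ^ 4 ≤ (p : ℤ) ^ 5 := by
        have : (p : ℤ) ^ 5 = p * (p : ℤ) ^ 4 := by ring
        nlinarith
      have e1 : 23 * (p : ℤ) ^ 3 ≤ (p : ℤ) ^ 4 := by
        have : (p : ℤ) ^ 4 = p * (p : ℤ) ^ 3 := by ring
        nlinarith
      have e2 : 23 * (p : ℤ) ^ 2 ≤ (p : ℤ) ^ 3 := by
        have : (p : ℤ) ^ 3 = p * (p : ℤ) ^ 2 := by ring
        nlinarith
      have e3 : 23 * (p : ℤ) ≤ (p : ℤ) ^ 2 := by nlinarith
      exact no_small (P := (p : ℤ) ^ 5) (X := (c : ℤ) ^ 3)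
        (T := 1 + 3 * p + 6 * (p : ℤ) ^ 2 + 10 * (p : ℤ) ^ 3 + 15 * (p : ℤ) ^ 4)
        (m1 := (p : ℤ) ^ 4) (m := (p : ℤ) ^ 5) (by linarith) (by linarith) hc3
        (by exact_mod_cast hcon) hη rfl h2
  · -- b = 7
    subst hb'
    by_cases hp22 : p ≤ 22
    · exact hsm 22 1 hp22 (by norm_num) (by norm_num) (by norm_num)
    · have hp23' : (23 : ℤ) ≤ p := by
        have : 23 ≤ p := by omega
        exact_mod_cast this
      refine hfin 5 ?_ (by norm_num)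
      by_contra hcon
      push Not at hcon
      have h1 := hmul 6 (by norm_num) (by norm_num)
      have e4 : 23 * (p : ℤ) ^ 5 ≤ (p : ℤ) ^ 6 := by
        have : (p : ℤ) ^ 6 = p * (p : ℤ) ^ 5 := by ring
        nlinarith
      have e0 : 23 * (p : ℤ) ^ 4 ≤ (p : ℤ) ^ 5 := by
        have : (p : ℤ) ^ 5 = p * (p : ℤ) ^ 4 := by ring
        nlinarith
      have e1 : 23 * (p : ℤ) ^ 3 ≤ (p : ℤ) ^ 4 := by
        have : (p : ℤ) ^ 4 = p * (p : ℤ) ^ 3 := by ring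
        nlinarith
      have e2 : 23 * (p : ℤ) ^ 2 ≤ (p : ℤ) ^ 3 := by
        have : (p : ℤ) ^ 3 = p * (p : ℤ) ^ 2 := by ring
        nlinarith
      have e3 : 23 * (p : ℤ) ≤ (p : ℤ) ^ 2 := by nlinarith
      exact no_small (P := (p : ℤ) ^ 6) (X := (c : ℤ) ^ 3)
        (T := 1 + 3 * p + 6 * (p : ℤ) ^ 2 + 10 * (p : ℤ) ^ 3 + 15 * (p : ℤ) ^ 4 +
          21 * (p : ℤ) ^ 5)
        (m1 := (p : ℤ) ^ 5) (m := (p : ℤ) ^ 6) (by linarith) (by linarith) hc3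
        (by exact_mod_cast hcon) hη rfl h1
  · exact hfin (b - 3) (cube_ge hp3 hc (by omega) hη h) (by omega)

end Pool.Agent.D0H37.SO
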